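import Pool.Agent.Y30.PP.Det
import Pool.Agent.TH456.TM.Inst

/-!
# Values of a polynomial at nearby powers are not all close to integers
-/

set_option autoImplicit false

namespace Pool.Agent.Y30.PP

open Polynomial Finset Matrix
open Pool.Agent.TH456.TM (MeasT)

lemma aeval_real (x : ℝ) (P : ℤ[X]) : aeval (x : ℂ) P = ((aeval x P : ℝ) : ℂ) := by
  have h := aeval_algebraMap_apply ℂ x P
  simpa using h

/-- the matrix of the powers -/
noncomputable def Mt (x : ℝ) {k : ℕ} (j : Fin (k + 1) → ℕ) : Matrix (Fin k) (Fin k) ℝ :=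
  Matrix.of fun t i : Fin k => (x ^ j t.castSucc) ^ ((i : ℕ) + 1)

lemma Mt_det {x : ℝ} (hx : 1 < |x|) {k : ℕ} (j : Fin (k + 1) → ℕ) (hj : StrictMono j) :
    (Mt x j).det ≠ 0 := by
  unfold Mt
  rw [det_pow_succ (fun t : Fin k => x ^ j t.castSucc)]
  have hx0 : x ≠ 0 := by
    rintro rfl
    simp at hx
    linarith
  refine mul_ne_zero (prod_ne_zero_iff.2 fun t _ => pow_ne_zero _ hx0)
    (prod_ne_zero_iff.2 fun t _ => prod_ne_zero_iff.2 fun t' ht' => ?_)
  intro h
  have h1 : |x| ^ j t'.castSucc = |x| ^ j t.castSucc := by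
    rw [← abs_pow, ← abs_pow, sub_eq_zero.1 h]
  have h2 := (pow_right_strictMono₀ hx).injective h1
  have h3 := hj.injective h2
  have h4 := Fin.castSucc_injective _ h3
  exact absurd h4 (Finset.mem_Ioi.1 ht').ne'

lemma core (x : ℝ) (hx1 : 1 < |x|) (hx : MeasT (x : ℂ)) (k L : ℕ) :
    ∃ κ C : ℝ, 0 ≤ κ ∧ 1 ≤ C ∧ ∀ j : Fin (k + 1) → ℕ, StrictMono j → (∀ l, j l ≤ L) →
      ∀ (y : Fin k → ℝ) (Y δ η : ℝ), 1 ≤ Y → (∀ i, |y i| ≤ Y) → (∃ i, δ ≤ |y i|) → 0 < η →
      (∀ l, ∃ b : ℤ, |∑ i : Fin k, y i * (x ^ j l) ^ ((i : ℕ) + 1) - b| < η) →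
      1 ≤ C * Y ^ κ * η ∨ δ ≤ C * η := by
  classical
  -- constants
  set cf : (Fin (k + 1) → Fin (L + 1)) → Fin (k + 1) → ℝ := fun J l =>
    ∑ m ∈ (S (fun l => (J l : ℕ)) l).support, |(((S (fun l => (J l : ℕ)) l).coeff m : ℤ) : ℝ)| with hcf
  have hcf0 : ∀ J l, 0 ≤ cf J l := fun J l => sum_nonneg fun _ _ => abs_nonneg _
  set K₁ : ℝ := 1 + ∑ J, ∑ l, cf J l with hK₁
  set D₁ : ℕ := ∑ J : Fin (k + 1) → Fin (L + 1), ∑ l, (S (fun l => (J l : ℕ)) l).natDegree with hD₁
  set K₃ : ℝ := 1 + ∑ J : Fin (k + 1) → Fin (L + 1), ∑ l, |aeval x (S (fun l => (J l : ℕ)) l)| with hK₃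
  set C₂ : ℝ := 1 + ∑ J : Fin (k + 1) → Fin (L + 1), ∑ i, ∑ t,
    |((Mt x (fun l => (J l : ℕ)))⁻¹) i t| with hC₂
  have hK₁1 : 1 ≤ K₁ := by
    rw [hK₁]; linarith [sum_nonneg fun J (_ : J ∈ univ) => sum_nonneg fun l (_ : l ∈ univ) => hcf0 J l]
  have hK₃1 : 1 ≤ K₃ := by
    rw [hK₃]
    have : 0 ≤ ∑ J : Fin (k + 1) → Fin (L + 1), ∑ l, |aeval x (S (fun l => (J l : ℕ)) l)| :=
      sum_nonneg fun J _ => sum_nonneg fun l _ => abs_nonneg _
    linarith
  have hC₂1 : 1 ≤ C₂ := by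
    rw [hC₂]
    have : 0 ≤ ∑ J : Fin (k + 1) → Fin (L + 1), ∑ i, ∑ t,
      |((Mt x (fun l => (J l : ℕ)))⁻¹) i t| :=
      sum_nonneg fun J _ => sum_nonneg fun l _ => sum_nonneg fun _ _ => abs_nonneg _
    linarith
  obtain ⟨κ, c, hκ, hc, hm⟩ := hx D₁
  set X₁ : ℝ := |x| ^ (L * k) with hX₁
  have hX₁1 : 1 ≤ X₁ := one_le_pow₀ hx1.le
  set K₄ : ℝ := ((k : ℝ) + 1) * K₁ * (k * X₁ + 1) with hK₄
  have hK₄1 : 1 ≤ K₄ := by
    rw [hK₄]
    have h1 : (1 : ℝ) ≤ (k : ℝ) + 1 := by linarith [Nat.cast_nonneg (α := ℝ) k]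
    have h2 : (1 : ℝ) ≤ k * X₁ + 1 := by
      have : 0 ≤ (k : ℝ) * X₁ := by positivity
      linarith
    have h3 : 1 ≤ ((k : ℝ) + 1) * K₁ := one_le_mul_of_one_le_of_one_le h1 hK₁1
    exact one_le_mul_of_one_le_of_one_le h3 h2
  have hCC : 0 ≤ K₄ ^ κ * K₃ / c := by positivity
  refine ⟨κ, 1 + C₂ + K₄ ^ κ * K₃ / c, hκ, by linarith, ?_⟩
  intro j hj hjL y Y δ η hY hyY hδ hη hb
  have hYκ : 1 ≤ Y ^ κ := Real.one_le_rpow hY hκ
  rcases le_or_gt 1 η with hη1 | hη1
  · left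
    have h1 : 1 ≤ (1 + C₂ + K₄ ^ κ * K₃ / c) * Y ^ κ :=
      one_le_mul_of_one_le_of_one_le (by linarith) hYκ
    exact one_le_mul_of_one_le_of_one_le h1 hη1
  choose b hb using hb
  set w : Fin (k + 1) → ℝ := fun l => ∑ i : Fin k, y i * (x ^ j l) ^ ((i : ℕ) + 1) with hw
  -- the tuple
  obtain ⟨J, hJ⟩ : ∃ J : Fin (k + 1) → Fin (L + 1), (fun l => (J l : ℕ)) = j :=
    ⟨fun l => ⟨j l, by have := hjL l; omega⟩, rfl⟩
  by_cases hb0 : b = 0
  · right
    obtain ⟨i, hi⟩ := hδ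
    have h1 : (Mt x j) *ᵥ y = fun t => w t.castSucc := by
      ext t
      simp only [Matrix.mulVec, dotProduct, Mt, Matrix.of_apply, hw]
      exact sum_congr rfl fun i _ => mul_comm _ _
    have h2 : y = (Mt x j)⁻¹ *ᵥ (fun t => w t.castSucc) := by
      rw [← h1, Matrix.mulVec_mulVec, Matrix.nonsing_inv_mul _ (isUnit_iff_ne_zero.2 (Mt_det hx1 j hj)),
        Matrix.one_mulVec]
    have h3 : |y i| ≤ ∑ t, |((Mt x j)⁻¹) i t| * η := by
      have h4 : y i = ∑ t, ((Mt x j)⁻¹) i t * w t.castSucc := congrFun h2 i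
      rw [h4]
      refine (abs_sum_le_sum_abs _ _).trans (sum_le_sum fun t _ => ?_)
      rw [abs_mul]
      refine mul_le_mul_of_nonneg_left ?_ (abs_nonneg _)
      have h5 := hb t.castSucc
      rw [hb0] at h5
      simp only [Pi.zero_apply, Int.cast_zero, sub_zero] at h5
      exact h5.le
    have h4 : ∑ t, |((Mt x j)⁻¹) i t| ≤ ∑ J : Fin (k + 1) → Fin (L + 1), ∑ i, ∑ t,
        |((Mt x (fun l => (J l : ℕ)))⁻¹) i t| := by
      have h5 : ∑ i, ∑ t, |((Mt x (fun l => (J l : ℕ)))⁻¹) i t| ≤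
          ∑ J : Fin (k + 1) → Fin (L + 1), ∑ i, ∑ t, |((Mt x (fun l => (J l : ℕ)))⁻¹) i t| :=
        single_le_sum (f := fun J : Fin (k + 1) → Fin (L + 1) => ∑ i, ∑ t,
          |((Mt x (fun l => (J l : ℕ)))⁻¹) i t|)
          (fun J _ => sum_nonneg fun _ _ => sum_nonneg fun _ _ => abs_nonneg _) (mem_univ J)
      refine le_trans ?_ h5
      rw [hJ]
      exact single_le_sum (f := fun i => ∑ t, |((Mt x j)⁻¹) i t|)
        (fun i _ => sum_nonneg fun _ _ => abs_nonneg _) (mem_univ i)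
    rw [← sum_mul] at h3
    have h5 : |y i| ≤ C₂ * η := by
      refine h3.trans (mul_le_mul_of_nonneg_right ?_ hη.le)
      rw [hC₂]; linarith
    have h6 : C₂ * η ≤ (1 + C₂ + K₄ ^ κ * K₃ / c) * η :=
      mul_le_mul_of_nonneg_right (by linarith) hη.le
    linarith
  · left
    set B : ℤ[X] := ∑ l, C (b l) * S j l with hB
    have hB0 : B ≠ 0 := S_ind j hj b hb0
    have hdeg : B.natDegree ≤ D₁ := by
      rw [hB]
      refine natDegree_sum_le_of_forall_le _ _ fun l _ => ?_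
      refine (natDegree_C_mul_le _ _).trans ?_
      have h1 : ∑ l, (S (fun l => (J l : ℕ)) l).natDegree ≤ D₁ :=
        single_le_sum (f := fun J : Fin (k + 1) → Fin (L + 1) =>
          ∑ l, (S (fun l => (J l : ℕ)) l).natDegree) (fun _ _ => Nat.zero_le _) (mem_univ J)
      refine le_trans ?_ h1
      rw [hJ]
      exact single_le_sum (f := fun l => (S j l).natDegree) (fun _ _ => Nat.zero_le _) (mem_univ l)
    have hwY : ∀ l, |w l| ≤ k * X₁ * Y := by
      intro l
      rw [hw]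
      refine (abs_sum_le_sum_abs _ _).trans ?_
      have h1 : ∀ i : Fin k, |y i * (x ^ j l) ^ ((i : ℕ) + 1)| ≤ X₁ * Y := by
        intro i
        rw [abs_mul, abs_pow, abs_pow, ← pow_mul, mul_comm]
        refine mul_le_mul ?_ (hyY i) (abs_nonneg _) (by positivity)
        exact pow_le_pow_right₀ hx1.le (Nat.mul_le_mul (hjL l) i.2)
      refine (sum_le_sum fun i _ => h1 i).trans ?_
      rw [sum_const, card_univ, Fintype.card_fin, nsmul_eq_mul, mul_assoc]
    have hbY : ∀ l, |(b l : ℝ)| ≤ (k * X₁ + 1) * Y := by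
      intro l
      have h1 : (b l : ℝ) = w l - (w l - b l) := by ring
      rw [h1]
      refine (abs_sub _ _).trans ?_
      have h2 := hwY l
      have h3 := (hb l).le
      have h4 : (k * X₁ + 1) * Y = k * X₁ * Y + Y := by ring
      rw [h4]
      have h5 : |w l - b l| ≤ η := h3
      linarith
    have hcoef : ∀ m, |((B.coeff m : ℤ) : ℝ)| ≤ K₄ * Y := by
      intro m
      rw [hB, finsetSum_coeff]
      push_cast
      refine (abs_sum_le_sum_abs _ _).trans ?_
      have h1 : ∀ l, |(((C (b l) * S j l).coeff m : ℤ) : ℝ)| ≤ (k * X₁ + 1) * Y * K₁ := by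
        intro l
        rw [coeff_C_mul]
        push_cast
        rw [abs_mul]
        refine mul_le_mul (hbY l) ?_ (abs_nonneg _) (by positivity)
        have h2 : |(((S j l).coeff m : ℤ) : ℝ)| ≤ cf J l := by
          simp only [hcf]
          rw [hJ]
          by_cases hm : m ∈ (S j l).support
          · exact single_le_sum (f := fun m => |(((S j l).coeff m : ℤ) : ℝ)|)
              (fun _ _ => abs_nonneg _) hm
          · rw [notMem_support_iff.1 hm, Int.cast_zero, abs_zero]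
            exact sum_nonneg fun _ _ => abs_nonneg _
        have h3 : cf J l ≤ ∑ l, cf J l := single_le_sum (fun l _ => hcf0 J l) (mem_univ l)
        have h4 : ∑ l, cf J l ≤ ∑ J, ∑ l, cf J l :=
          single_le_sum (f := fun J => ∑ l, cf J l) (fun J _ => sum_nonneg fun l _ => hcf0 J l)
            (mem_univ J)
        rw [hK₁]
        linarith
      refine (sum_le_sum fun l _ => h1 l).trans ?_
      rw [sum_const, card_univ, Fintype.card_fin, nsmul_eq_mul, hK₄]
      push_cast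
      apply le_of_eq
      ring
    have hKY : 1 ≤ K₄ * Y := one_le_mul_of_one_le_of_one_le hK₄1 hY
    have h1 := hm B hB0 hdeg (K₄ * Y) hKY hcoef
    rw [aeval_real, Complex.norm_real, Real.norm_eq_abs] at h1
    have h2 : |aeval x B| ≤ K₃ * η := by
      have h3 : aeval x B = ∑ l, ((b l : ℝ) - w l) * aeval x (S j l) := by
        have h4 := relation_S j x y
        have h5 : aeval x B = ∑ l, (b l : ℝ) * aeval x (S j l) := by
          rw [hB, map_sum]
          refine sum_congr rfl fun l _ => ?_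
          rw [map_mul, aeval_C]
          simp
        rw [h5]
        simp only [sub_mul, sum_sub_distrib]
        rw [show ∑ l, w l * aeval x (S j l) = 0 from h4, sub_zero]
      rw [h3]
      refine (abs_sum_le_sum_abs _ _).trans ?_
      have h4 : ∀ l, |((b l : ℝ) - w l) * aeval x (S j l)| ≤ |aeval x (S j l)| * η := by
        intro l
        rw [abs_mul, mul_comm]
        refine mul_le_mul_of_nonneg_left ?_ (abs_nonneg _)
        rw [abs_sub_comm]
        exact (hb l).le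
      refine (sum_le_sum fun l _ => h4 l).trans ?_
      rw [← sum_mul]
      refine mul_le_mul_of_nonneg_right ?_ hη.le
      have h5 : ∑ l, |aeval x (S (fun l => (J l : ℕ)) l)| ≤
          ∑ J : Fin (k + 1) → Fin (L + 1), ∑ l, |aeval x (S (fun l => (J l : ℕ)) l)| :=
        single_le_sum (f := fun J : Fin (k + 1) → Fin (L + 1) =>
          ∑ l, |aeval x (S (fun l => (J l : ℕ)) l)|)
          (fun J _ => sum_nonneg fun l _ => abs_nonneg _) (mem_univ J)
      rw [hJ] at h5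
      rw [hK₃]
      linarith
    have h3 : c ≤ K₄ ^ κ * Y ^ κ * (K₃ * η) := by
      rw [← Real.mul_rpow (by linarith) (by linarith)]
      exact h1.trans (mul_le_mul_of_nonneg_left h2 (by positivity))
    have h4 : 1 ≤ K₄ ^ κ * K₃ / c * Y ^ κ * η := by
      rw [div_mul_eq_mul_div, div_mul_eq_mul_div, le_div_iff₀ hc]
      calc 1 * c = c := one_mul c
        _ ≤ _ := h3
        _ = _ := by ring
    refine h4.trans ?_
    refine mul_le_mul_of_nonneg_right (mul_le_mul_of_nonneg_right ?_ (by positivity)) hη.le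
    linarith

end Pool.Agent.Y30.PP
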