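import Mathlib

/-!
# Counting: sparse sets, and the mean square of exponential sums
-/

set_option autoImplicit false

namespace Pool.Agent.Y30.PP

open Finset

/-- a set with at most `k` elements in every window of length `L` is sparse -/
lemma sparse (k L M K : ℕ) (Z : Finset ℕ) (hZ : Z ⊆ Ioc M (M + K))
    (h : ∀ n : Fin (k + 1) → ℕ, StrictMono n → (∀ l, n l ∈ Z) → n 0 + L < n (Fin.last k)) :
    Z.card ≤ k * (K / (L + 1) + 1) := by
  classical
  have h1 : Z.card ≤ k * (Z.image fun n => (n - M - 1) / (L + 1)).card := by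
    refine card_le_mul_card_image Z k fun q _ => ?_
    by_contra hcon
    push Not at hcon
    obtain ⟨W, hW, hWc⟩ := exists_subset_card_eq (Nat.succ_le_of_lt hcon)
    have h2 := h (W.orderEmbOfFin hWc) (W.orderEmbOfFin hWc).strictMono
      (fun l => (mem_filter.1 (hW (W.orderEmbOfFin_mem hWc l))).1)
    have h3 := mem_filter.1 (hW (W.orderEmbOfFin_mem hWc 0))
    have h4 := mem_filter.1 (hW (W.orderEmbOfFin_mem hWc (Fin.last k)))
    have h5 := mem_Ioc.1 (hZ h3.1)
    have h6 := mem_Ioc.1 (hZ h4.1)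
    have h7 := h3.2
    have h8 := h4.2
    set a := (W.orderEmbOfFin hWc) 0
    set b := (W.orderEmbOfFin hWc) (Fin.last k)
    have h9 : (a - M - 1) / (L + 1) = (b - M - 1) / (L + 1) := by rw [h7, h8]
    have h10 := Nat.div_add_mod (a - M - 1) (L + 1)
    have h11 := Nat.div_add_mod (b - M - 1) (L + 1)
    have h12 := Nat.mod_lt (b - M - 1) (Nat.succ_pos L)
    rw [h9] at h10
    simp only [Nat.succ_eq_add_one] at h12
    omega
  refine h1.trans (Nat.mul_le_mul_left _ ?_)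
  have h2 : (Z.image fun n => (n - M - 1) / (L + 1)) ⊆ range (K / (L + 1) + 1) := by
    intro q hq
    obtain ⟨n, hn, rfl⟩ := mem_image.1 hq
    have h3 := mem_Ioc.1 (hZ hn)
    rw [mem_range, Nat.lt_succ_iff]
    exact Nat.div_le_div_right (by omega)
  refine (card_le_card h2).trans ?_
  rw [card_range]

/-- `e(t) = exp(2 π i t)` -/
noncomputable def ee (t : ℝ) : ℂ := Complex.exp (2 * Real.pi * Complex.I * (t : ℂ))

lemma ee_add (s t : ℝ) : ee (s + t) = ee s * ee t := by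
  unfold ee
  rw [← Complex.exp_add]
  congr 1
  push_cast
  ring

lemma ee_norm (t : ℝ) : ‖ee t‖ = 1 := by
  unfold ee
  have : (2 * Real.pi * Complex.I * (t : ℂ)) = ((2 * Real.pi * t : ℝ) : ℂ) * Complex.I := by
    push_cast; ring
  rw [this, Complex.norm_exp_ofReal_mul_I]

lemma ee_nat (j : ℕ) (t : ℝ) : ee (j * t) = ee t ^ j := by
  unfold ee
  rw [← Complex.exp_nat_mul]
  congr 1
  push_cast
  ring

lemma ee_conj (t : ℝ) : (starRingEnd ℂ) (ee t) = ee (-t) := by
  unfold ee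
  rw [← Complex.exp_conj]
  congr 1
  simp only [map_mul, Complex.conj_ofReal, Complex.conj_I, map_ofNat]
  push_cast
  ring

lemma ee_low (y ψ : ℝ) (h : ∀ b : ℤ, ψ ≤ |y - b|) : 4 * ψ ≤ ‖ee y - 1‖ := by
  unfold ee
  have h1 := h (round y)
  have h2 : |y - round y| ≤ 1 / 2 := abs_sub_round y
  set u : ℝ := y - round y with hu
  have e1 : Complex.exp (2 * Real.pi * Complex.I * (y : ℂ)) =
      Complex.exp (Complex.I * ((2 * Real.pi * u : ℝ) : ℂ)) := by
    have e2 : (2 * Real.pi * Complex.I * (y : ℂ)) =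
        Complex.I * ((2 * Real.pi * u : ℝ) : ℂ) + (round y : ℤ) * (2 * Real.pi * Complex.I) := by
      rw [hu]
      push_cast
      ring
    rw [e2, Complex.exp_add, Complex.exp_int_mul_two_pi_mul_I, mul_one]
  rw [e1, Complex.norm_exp_I_mul_ofReal_sub_one]
  have e3 : 2 * Real.pi * u / 2 = Real.pi * u := by ring
  have hpi := Real.pi_pos
  have e4 : |Real.pi * u| ≤ Real.pi / 2 := by
    rw [abs_mul, abs_of_pos hpi]
    calc Real.pi * |u| ≤ Real.pi * (1 / 2) := mul_le_mul_of_nonneg_left h2 hpi.le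
      _ = Real.pi / 2 := by ring
  have e5 := Real.mul_abs_le_abs_sin e4
  rw [e3, Real.norm_eq_abs, abs_mul, abs_of_pos (by norm_num : (0:ℝ) < 2)]
  rw [abs_mul, abs_of_pos hpi] at e5
  have e6 : 2 / Real.pi * (Real.pi * |u|) = 2 * |u| := by field_simp
  rw [e6] at e5
  linarith

lemma geom (q : ℂ) (H : ℕ) : (∑ j ∈ range H, q ^ j) * (q - 1) = q ^ H - 1 := by
  induction H with
  | zero => simp
  | succ n ih =>
    rw [sum_range_succ, add_mul, ih]
    ring

lemma sum_triv (y : ℝ) (H : ℕ) : ‖∑ j ∈ range H, ee y ^ j‖ ≤ H := by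
  refine (norm_sum_le _ _).trans ?_
  simp only [norm_pow, ee_norm, one_pow, sum_const, card_range, nsmul_eq_mul, mul_one, le_refl]

lemma sum_good (y ψ : ℝ) (H : ℕ) (hψ : 0 < ψ) (h : ∀ b : ℤ, ψ ≤ |y - b|) :
    ‖∑ j ∈ range H, ee y ^ j‖ ≤ 1 / (2 * ψ) := by
  have h1 := ee_low y ψ h
  set q := ee y with hq
  have hq1 : ‖q‖ = 1 := ee_norm y
  have h2 := congrArg norm (geom q H)
  rw [norm_mul] at h2
  have h3 : ‖q ^ H - 1‖ ≤ 2 := by
    refine (norm_sub_le _ _).trans ?_
    rw [norm_pow, hq1, one_pow, norm_one]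
    norm_num
  rw [← h2] at h3
  rw [le_div_iff₀ (by positivity)]
  have h4 : ‖∑ j ∈ range H, q ^ j‖ * (4 * ψ) ≤ ‖∑ j ∈ range H, q ^ j‖ * ‖q - 1‖ :=
    mul_le_mul_of_nonneg_left h1 (norm_nonneg _)
  linarith

/-- expansion of the mean square -/
lemma expand (A : Finset ℕ) (z : ℕ → ℂ) (hz : ∀ n, ‖z n‖ ≤ 1) (u : ℕ → ℝ) (H : ℕ) :
    ∑ j ∈ range H, ‖∑ n ∈ A, z n * ee (j * u n)‖ ^ 2 ≤
    ∑ p ∈ A ×ˢ A, ‖∑ j ∈ range H, ee (u p.2 - u p.1) ^ j‖ := by
  have h1 : ∀ j : ℕ, ((‖∑ n ∈ A, z n * ee (j * u n)‖ ^ 2 : ℝ) : ℂ) =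
      ∑ p ∈ A ×ˢ A, (starRingEnd ℂ) (z p.1) * z p.2 * ee (u p.2 - u p.1) ^ j := by
    intro j
    rw [Complex.ofReal_pow, ← Complex.conj_mul', map_sum, Finset.sum_mul_sum, sum_product]
    refine sum_congr rfl fun m _ => sum_congr rfl fun n _ => ?_
    have e1 : ee (u n - u m) ^ j = ee (j * u n) * ee (-(j * u m)) := by
      rw [← ee_nat, ← ee_add]
      congr 1
      ring
    rw [map_mul, ee_conj, e1]
    ring
  have h2 : ((∑ j ∈ range H, ‖∑ n ∈ A, z n * ee (j * u n)‖ ^ 2 : ℝ) : ℂ) =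
      ∑ p ∈ A ×ˢ A, (starRingEnd ℂ) (z p.1) * z p.2 * ∑ j ∈ range H, ee (u p.2 - u p.1) ^ j := by
    rw [Complex.ofReal_sum, sum_congr rfl fun j _ => h1 j, sum_comm]
    exact sum_congr rfl fun p _ => by rw [mul_sum]
  have h3 := congrArg norm h2
  rw [Complex.norm_real, Real.norm_of_nonneg (sum_nonneg fun h _ => by positivity)] at h3
  rw [h3]
  refine (norm_sum_le _ _).trans (sum_le_sum fun p _ => ?_)
  rw [norm_mul, norm_mul, RCLike.norm_conj]
  have h4 : ‖z p.1‖ * ‖z p.2‖ ≤ 1 := mul_le_one₀ (hz _) (norm_nonneg _) (hz _)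
  calc ‖z p.1‖ * ‖z p.2‖ * ‖∑ j ∈ range H, ee (u p.2 - u p.1) ^ j‖
      ≤ 1 * ‖∑ j ∈ range H, ee (u p.2 - u p.1) ^ j‖ :=
        mul_le_mul_of_nonneg_right h4 (norm_nonneg _)
    _ = _ := one_mul _

open Classical in
/-- the mean square, in terms of the number of close pairs with a given difference -/
lemma mean_sq (M K H B : ℕ) (z : ℕ → ℂ) (hz : ∀ n, ‖z n‖ ≤ 1) (u : ℕ → ℝ) (η : ℝ) (hη : 0 < η)
    (hB : ∀ d, 1 ≤ d → ((Ioc M (M + K)).filter fun n => n + d ∈ Ioc M (M + K) ∧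
      ∃ b : ℤ, |u (n + d) - u n - b| < η).card ≤ B) :
    ∑ j ∈ range H, ‖∑ n ∈ Ioc M (M + K), z n * ee (j * u n)‖ ^ 2 ≤
      H * (K + 2 * K * B) + K * K * (1 / (2 * η)) := by
  set A := Ioc M (M + K) with hA
  have hAc : A.card = K := by rw [hA, Nat.card_Ioc]; omega
  refine (expand A z hz u H).trans ?_
  set F := (A ×ˢ A).filter (fun p => ∃ b : ℤ, |u p.2 - u p.1 - b| < η) with hF
  have hterm : ∀ p ∈ A ×ˢ A, ‖∑ j ∈ range H, ee (u p.2 - u p.1) ^ j‖ ≤
      (if p ∈ F then (H : ℝ) else 0) + 1 / (2 * η) := by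
    intro p hp
    by_cases hpF : p ∈ F
    · rw [if_pos hpF]
      have h1 := sum_triv (u p.2 - u p.1) H
      have h2 : 0 ≤ 1 / (2 * η) := by positivity
      linarith
    · rw [if_neg hpF, zero_add]
      refine sum_good _ η H hη fun b => ?_
      by_contra hcon
      push Not at hcon
      exact hpF (mem_filter.2 ⟨hp, b, hcon⟩)
  refine (sum_le_sum hterm).trans ?_
  rw [sum_add_distrib, sum_const, card_product, hAc, nsmul_eq_mul, ← sum_filter]
  have h1 : (A ×ˢ A).filter (fun p => p ∈ F) = F := by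
    ext p
    simp only [mem_filter, hF]
    tauto
  rw [h1, sum_const, nsmul_eq_mul]
  push_cast
  refine add_le_add ?_ le_rfl
  -- the number of close pairs
  set F1 := F.filter (fun p => p.1 < p.2) with hF1
  have c1 : F1.card ≤ K * B := by
    have h2 : F1.card ≤ B * (F1.image fun p => p.2 - p.1).card := by
      refine card_le_mul_card_image F1 B fun d hd => ?_
      obtain ⟨p₀, hp₀, hp₀d⟩ := mem_image.1 hd
      have hd1 : 1 ≤ d := by
        have := (mem_filter.1 hp₀).2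
        omega
      refine le_trans ?_ (hB d hd1)
      refine card_le_card_of_injOn (fun p => p.1) ?_ ?_
      · intro p hp
        simp only [hF1, hF, coe_filter, mem_filter, mem_product, Set.mem_ofPred_eq] at hp ⊢
        obtain ⟨⟨⟨⟨h3, h4⟩, b, hb⟩, h5⟩, h6⟩ := hp
        have h7 : p.1 + d = p.2 := by omega
        rw [h7]
        exact ⟨h3, h4, b, hb⟩
      · intro p hp q hq hpq
        simp only [hF1, hF, coe_filter, mem_filter, mem_product, Set.mem_ofPred_eq] at hp hq hpq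
        obtain ⟨⟨_, h5⟩, h6⟩ := hp
        obtain ⟨⟨_, h5'⟩, h6'⟩ := hq
        refine Prod.ext hpq ?_
        omega
    have h3 : (F1.image fun p => p.2 - p.1) ⊆ Ioc 0 K := by
      intro d hd
      obtain ⟨p, hp, rfl⟩ := mem_image.1 hd
      simp only [hF1, hF, mem_filter, mem_product, hA, mem_Ioc] at hp ⊢
      omega
    have h4 := card_le_card h3
    rw [Nat.card_Ioc] at h4
    calc F1.card ≤ B * (F1.image fun p => p.2 - p.1).card := h2
      _ ≤ B * K := Nat.mul_le_mul_left _ (by omega)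
      _ = K * B := mul_comm _ _
  have c2 : (F.filter (fun p => p.2 < p.1)).card ≤ F1.card := by
    refine card_le_card_of_injOn Prod.swap ?_ (Prod.swap_injective.injOn)
    intro p hp
    simp only [hF1, hF, coe_filter, mem_filter, mem_product, Set.mem_ofPred_eq, Prod.fst_swap,
      Prod.snd_swap] at hp ⊢
    obtain ⟨⟨⟨h3, h4⟩, b, hb⟩, h5⟩ := hp
    refine ⟨⟨⟨h4, h3⟩, -b, ?_⟩, h5⟩
    rw [abs_sub_comm] at hb
    have e1 : u p.1 - u p.2 - ((-b : ℤ) : ℝ) = (b : ℝ) - (u p.2 - u p.1) := by push_cast; ring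
    rw [e1]
    exact hb
  have c3 : (F.filter (fun p => p.1 = p.2)).card ≤ K := by
    rw [← hAc]
    refine card_le_card_of_injOn (fun p => p.1) ?_ ?_
    · intro p hp
      simp only [hF, coe_filter, mem_filter, mem_product, Set.mem_ofPred_eq] at hp ⊢
      exact hp.1.1.1
    · intro p hp q hq hpq
      simp only [hF, coe_filter, mem_filter, mem_product, Set.mem_ofPred_eq] at hp hq hpq
      refine Prod.ext hpq ?_
      rw [← hp.2, ← hq.2]
      exact hpq
  have c4 : F.card ≤ (F.filter (fun p => p.1 = p.2)).card + F1.card +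
      (F.filter (fun p => p.2 < p.1)).card := by
    have h5 : F ⊆ F.filter (fun p => p.1 = p.2) ∪ F1 ∪ F.filter (fun p => p.2 < p.1) := by
      intro p hp
      rw [mem_union, mem_union]
      rcases lt_trichotomy p.1 p.2 with h | h | h
      · exact Or.inl (Or.inr (mem_filter.2 ⟨hp, h⟩))
      · exact Or.inl (Or.inl (mem_filter.2 ⟨hp, h⟩))
      · exact Or.inr (mem_filter.2 ⟨hp, h⟩)
    refine (card_le_card h5).trans ((card_union_le _ _).trans ?_)
    exact Nat.add_le_add_right (card_union_le _ _) _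
  have c5 : F.card ≤ K + 2 * K * B := by
    calc F.card ≤ _ := c4
      _ ≤ K + K * B + K * B := by omega
      _ = _ := by ring
  have c6 : (F.card : ℝ) ≤ K + 2 * K * B := by exact_mod_cast c5
  calc (F.card : ℝ) * H ≤ (K + 2 * K * B) * H := mul_le_mul_of_nonneg_right c6 (Nat.cast_nonneg _)
    _ = _ := mul_comm _ _

end Pool.Agent.Y30.PP
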