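import Pool.Agent.Y30.PP.Count
import Mathlib.Analysis.Fourier.AddCircleMulti

/-!
# A finite Weyl criterion in several dimensions
-/

set_option autoImplicit false

namespace Pool.Agent.Y30.PP

open MeasureTheory Set

/-- The circle `R/Z`. -/
abbrev Circ : Type := AddCircle (1 : ℝ)

lemma integral_fourier_eq_zero {n : ℤ} (hn : n ≠ 0) :
    ∫ x : Circ, (fourier n x : ℂ) = 0 := by
  have ha : ∃ a : Circ, (fourier n a : ℂ) ≠ 1 := by
    refine ⟨((1 / (2 * n) : ℝ) : Circ), ?_⟩
    rw [fourier_coe_apply]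
    have hn' : (n : ℂ) ≠ 0 := by exact_mod_cast hn
    have : 2 * (Real.pi : ℂ) * Complex.I * n * ((1 / (2 * n) : ℝ) : ℂ) / ((1 : ℝ) : ℂ) = Real.pi * Complex.I := by
      push_cast
      field_simp
    rw [this, Complex.exp_pi_mul_I]
    norm_num
  obtain ⟨a, ha⟩ := ha
  have h1 : ∫ x : Circ, (fourier n (x + a) : ℂ) = ∫ x : Circ, (fourier n x : ℂ) :=
    integral_add_right_eq_self (fun x => (fourier n x : ℂ)) a
  have h2 : ∀ x : Circ, (fourier n (x + a) : ℂ) = fourier n x * fourier n a := by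
    intro x
    simp only [fourier_apply]
    rw [smul_add, AddCircle.toCircle_add]; simp
  simp_rw [h2] at h1
  rw [integral_mul_const] at h1
  have h3 : (∫ x : Circ, (fourier n x : ℂ)) * ((fourier n a : ℂ) - 1) = 0 := by
    rw [mul_sub, h1]; ring
  rcases mul_eq_zero.1 h3 with h | h
  · exact h
  · exact absurd (sub_eq_zero.1 h) ha

instance instProbCirc : IsProbabilityMeasure (volume : Measure Circ) :=
  ⟨by rw [AddCircle.measure_univ]; simp⟩

variable {d : ℕ}

/-- the point of the torus -/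
def pt (v : Fin d → ℝ) : Fin d → Circ := fun i => ((v i : ℝ) : Circ)

/-- small exponential sums -/
def Wy (s : Finset ℕ) (y : ℕ → Fin d → ℝ) (R : ℕ) (δ : ℝ) : Prop :=
  ∀ r : Fin d → ℤ, r ≠ 0 → (∀ a, |r a| ≤ (R : ℤ)) →
    ‖∑ n ∈ s, ee (∑ a, (r a : ℝ) * y n a)‖ ≤ δ * s.card

lemma Wy.mono {s : Finset ℕ} {y : ℕ → Fin d → ℝ} {R R' : ℕ} {δ δ' : ℝ} (h : Wy s y R δ)
    (hR : R' ≤ R) (hδ : δ ≤ δ') : Wy s y R' δ' := by
  intro r hr hrR
  refine (h r hr fun a => (hrR a).trans (by exact_mod_cast hR)).trans ?_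
  exact mul_le_mul_of_nonneg_right hδ (Nat.cast_nonneg _)

lemma mFourier_pt (r : Fin d → ℤ) (v : Fin d → ℝ) :
    UnitAddTorus.mFourier r (pt v) = ee (∑ a, (r a : ℝ) * v a) := by
  have h1 : UnitAddTorus.mFourier r (pt v) = ∏ i, (fourier (r i) ((v i : ℝ) : Circ) : ℂ) := rfl
  rw [h1]
  simp only [fourier_coe_apply]
  rw [← Complex.exp_sum]
  unfold ee
  congr 1
  push_cast
  rw [Finset.mul_sum]
  refine Finset.sum_congr rfl fun i _ => ?_
  rw [div_one]
  ring

lemma integral_mFourier {r : Fin d → ℤ} (hr : r ≠ 0) :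
    ∫ x : Fin d → Circ, (UnitAddTorus.mFourier r x : ℂ) = 0 := by
  have h1 : ∀ x : Fin d → Circ, (UnitAddTorus.mFourier r x : ℂ) = ∏ i, (fourier (r i) (x i) : ℂ) :=
    fun x => rfl
  simp_rw [h1]
  have h2 := integral_fintype_prod_volume_eq_prod (E := fun _ : Fin d => Circ)
    (fun (i : Fin d) (x : Circ) => (fourier (r i) x : ℂ))
  rw [h2]
  obtain ⟨i, hi⟩ := Function.ne_iff.1 hr
  exact Finset.prod_eq_zero (Finset.mem_univ i) (integral_fourier_eq_zero hi)

lemma integrable_cont (F : C(Fin d → Circ, ℂ)) : Integrable F :=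
  F.continuous.integrable_of_hasCompactSupport (HasCompactSupport.of_compactSpace _)

/-- the conclusion for continuous functions -/
def GoodF (F : C(Fin d → Circ, ℂ)) : Prop :=
  ∀ δ' : ℝ, 0 < δ' → ∃ (R : ℕ) (δ : ℝ), 0 < δ ∧ ∀ (s : Finset ℕ) (y : ℕ → Fin d → ℝ),
    Wy s y R δ → ‖∑ n ∈ s, F (pt (y n)) - s.card * ∫ x, F x‖ ≤ δ' * s.card

lemma good_span (F : C(Fin d → Circ, ℂ))
    (hF : F ∈ Submodule.span ℂ (range <| UnitAddTorus.mFourier (d := Fin d))) : GoodF F := by
  induction hF using Submodule.span_induction with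
  | mem f hf =>
    obtain ⟨r, rfl⟩ := hf
    intro δ' hδ'
    by_cases hr : r = 0
    · refine ⟨0, 1, one_pos, fun s y _ => ?_⟩
      subst hr
      have h1 : ∀ x : Fin d → Circ, (UnitAddTorus.mFourier 0 x : ℂ) = 1 := by
        intro x
        rw [UnitAddTorus.mFourier_zero]; rfl
      simp only [h1]
      simp only [Finset.sum_const, nsmul_eq_mul, mul_one, integral_const]
      have h2 : (volume : Measure (Fin d → Circ)).real univ = 1 := probReal_univ
      rw [h2]
      simp only [one_smul, mul_one, sub_self, norm_zero]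
      positivity
    · refine ⟨∑ a, (r a).natAbs, δ', hδ', fun s y h => ?_⟩
      have h1 := h r hr (fun a => by
        have h2 : (r a).natAbs ≤ ∑ a, (r a).natAbs :=
          Finset.single_le_sum (f := fun a => (r a).natAbs) (fun _ _ => Nat.zero_le _) (Finset.mem_univ a)
        rw [Int.abs_eq_natAbs]
        exact_mod_cast h2)
      rw [integral_mFourier hr, mul_zero, sub_zero]
      simp only [mFourier_pt]
      exact h1
  | zero =>
    intro δ' hδ'
    refine ⟨0, 1, one_pos, fun s y _ => ?_⟩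
    simp
    positivity
  | add f g hf hg ihf ihg =>
    intro δ' hδ'
    obtain ⟨R₁, δ₁, h₁, H₁⟩ := ihf (δ' / 2) (by positivity)
    obtain ⟨R₂, δ₂, h₂, H₂⟩ := ihg (δ' / 2) (by positivity)
    refine ⟨max R₁ R₂, min δ₁ δ₂, lt_min h₁ h₂, fun s y h => ?_⟩
    have e1 := H₁ s y (h.mono (le_max_left _ _) (min_le_left _ _))
    have e2 := H₂ s y (h.mono (le_max_right _ _) (min_le_right _ _))
    have hi : ∫ x, (f + g) x = (∫ x, f x) + ∫ x, g x := by
      have := integral_add (integrable_cont f) (integrable_cont g)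
      simpa using this
    rw [hi]
    have e3 : ∑ n ∈ s, (f + g) (pt (y n)) - s.card * ((∫ x, f x) + ∫ x, g x) =
        (∑ n ∈ s, f (pt (y n)) - s.card * ∫ x, f x) + (∑ n ∈ s, g (pt (y n)) - s.card * ∫ x, g x) := by
      have : ∑ n ∈ s, (f + g) (pt (y n)) = ∑ n ∈ s, f (pt (y n)) + ∑ n ∈ s, g (pt (y n)) := by
        rw [← Finset.sum_add_distrib]; rfl
      rw [this]; ring
    rw [e3]
    refine (norm_add_le _ _).trans ?_
    linarith
  | smul c f hf ihf =>
    intro δ' hδ'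
    obtain ⟨R₁, δ₁, h₁, H₁⟩ := ihf (δ' / (‖c‖ + 1)) (by positivity)
    refine ⟨R₁, δ₁, h₁, fun s y h => ?_⟩
    have e1 := H₁ s y h
    have hi : ∫ x, (c • f) x = c * (∫ x, f x) := by
      simp [integral_const_mul]
    rw [hi]
    have e3 : ∑ n ∈ s, (c • f) (pt (y n)) - s.card * (c * ∫ x, f x) =
        c * (∑ n ∈ s, f (pt (y n)) - s.card * ∫ x, f x) := by
      have : ∑ n ∈ s, (c • f) (pt (y n)) = c * ∑ n ∈ s, f (pt (y n)) := by
        rw [Finset.mul_sum]; rfl
      rw [this]; ring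
    rw [e3, norm_mul]
    have h0 : 0 ≤ ‖c‖ := norm_nonneg _
    calc ‖c‖ * ‖∑ n ∈ s, f (pt (y n)) - s.card * ∫ x, f x‖
        ≤ ‖c‖ * (δ' / (‖c‖ + 1) * s.card) := mul_le_mul_of_nonneg_left e1 h0
      _ = (‖c‖ / (‖c‖ + 1)) * (δ' * s.card) := by ring
      _ ≤ 1 * (δ' * s.card) := by
          refine mul_le_mul_of_nonneg_right ?_ (by positivity)
          rw [div_le_one (by positivity)]
          linarith
      _ = _ := one_mul _

theorem good_all (F : C(Fin d → Circ, ℂ)) : GoodF F := by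
  intro δ' hδ'
  have hcl : F ∈ (Submodule.span ℂ (range <| UnitAddTorus.mFourier (d := Fin d))).topologicalClosure := by
    rw [UnitAddTorus.span_mFourier_closure_eq_top]; trivial
  rw [← SetLike.mem_coe, Submodule.topologicalClosure_coe, Metric.mem_closure_iff] at hcl
  obtain ⟨f, hf, hfd⟩ := hcl (δ' / 3) (by positivity)
  obtain ⟨R, δ, hδ, h⟩ := good_span f hf (δ' / 3) (by positivity)
  refine ⟨R, δ, hδ, fun s y hw => ?_⟩
  have h1 := h s y hw
  have h4 : ‖F - f‖ < δ' / 3 := by rw [← dist_eq_norm]; exact hfd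
  have h2 : ‖∑ n ∈ s, F (pt (y n)) - ∑ n ∈ s, f (pt (y n))‖ ≤ ‖F - f‖ * s.card := by
    rw [← Finset.sum_sub_distrib]
    calc ‖∑ n ∈ s, (F (pt (y n)) - f (pt (y n)))‖ ≤ ∑ n ∈ s, ‖F (pt (y n)) - f (pt (y n))‖ :=
          norm_sum_le _ _
      _ ≤ ∑ _n ∈ s, ‖F - f‖ := Finset.sum_le_sum fun n _ => (F - f).norm_coe_le_norm _
      _ = _ := by rw [Finset.sum_const, nsmul_eq_mul, mul_comm]
  have h3 : ‖(∫ x, f x) - ∫ x, F x‖ ≤ ‖F - f‖ := by
    rw [← integral_sub (integrable_cont f) (integrable_cont F)]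
    calc ‖∫ x, (f x - F x)‖ ≤ ‖F - f‖ * (volume : Measure (Fin d → Circ)).real univ := by
          apply norm_integral_le_of_norm_le_const
          filter_upwards with x
          rw [norm_sub_rev]
          exact (F - f).norm_coe_le_norm x
      _ = ‖F - f‖ := by rw [probReal_univ, mul_one]
  have e1 : ∑ n ∈ s, F (pt (y n)) - s.card * ∫ x, F x =
      (∑ n ∈ s, F (pt (y n)) - ∑ n ∈ s, f (pt (y n))) +
      (∑ n ∈ s, f (pt (y n)) - s.card * ∫ x, f x) + s.card * ((∫ x, f x) - ∫ x, F x) := by ring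
  rw [e1]
  refine (norm_add₃_le).trans ?_
  have h5 : ‖(s.card : ℂ) * ((∫ x, f x) - ∫ x, F x)‖ ≤ s.card * (δ' / 3) := by
    rw [norm_mul, Complex.norm_natCast]
    exact mul_le_mul_of_nonneg_left (h3.trans h4.le) (Nat.cast_nonneg _)
  have h6 : ‖F - f‖ * (s.card : ℝ) ≤ δ' / 3 * s.card :=
    mul_le_mul_of_nonneg_right h4.le (Nat.cast_nonneg _)
  linarith

open Classical in
/-- visits to a closed set -/
theorem closed_upper {E : Set (Fin d → Circ)} (hE : IsClosed E) (v : ℝ) (hv : 0 ≤ v)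
    (hEv : volume E ≤ ENNReal.ofReal v) (ε : ℝ) (hε : 0 < ε) :
    ∃ (R : ℕ) (δ : ℝ), 0 < δ ∧ ∀ (s : Finset ℕ) (y : ℕ → Fin d → ℝ), Wy s y R δ →
      ((s.filter (fun n => pt (y n) ∈ E)).card : ℝ) ≤ (v + ε) * s.card := by
  obtain ⟨U, hNU, hUo, hUv⟩ : ∃ U ⊇ E, IsOpen U ∧ volume U < ENNReal.ofReal (v + ε / 2) :=
    E.exists_isOpen_lt_of_lt _ (by
      refine lt_of_le_of_lt hEv ?_
      exact (ENNReal.ofReal_lt_ofReal_iff (by linarith)).2 (by linarith))
  obtain ⟨g, hg0, hg1, hg01⟩ := exists_continuous_zero_one_of_isClosed hUo.isClosed_compl hE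
    (by rw [disjoint_compl_left_iff_subset]; exact hNU)
  let h : C(Fin d → Circ, ℂ) := ⟨fun x => (g x : ℂ), by fun_prop⟩
  have hint : ∫ y, h y = ((∫ y : Fin d → Circ, g y : ℝ) : ℂ) := by
    simp only [h, ContinuousMap.coe_mk]
    exact integral_ofReal
  have hintv : ∫ y : Fin d → Circ, g y ≤ v + ε / 2 := by
    have h2 : ∫ y : Fin d → Circ, g y ≤ ∫ y : Fin d → Circ, U.indicator (fun _ => (1 : ℝ)) y := by
      apply integral_mono
      · exact g.continuous.integrable_of_hasCompactSupport (HasCompactSupport.of_compactSpace _)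
      · exact (integrable_indicator_iff hUo.measurableSet).2 (integrableOn_const (by simp) )
      · intro y
        by_cases hy : y ∈ U
        · simp only [hy, indicator_of_mem]; exact (hg01 y).2
        · simp only [hy, not_false_eq_true, indicator_of_notMem]
          exact le_of_eq (hg0 hy)
    rw [integral_indicator hUo.measurableSet] at h2
    simp only [integral_const, MeasurableSet.univ, measureReal_restrict_apply, univ_inter, smul_eq_mul, mul_one] at h2
    refine h2.trans ?_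
    rw [Measure.real]
    exact ENNReal.toReal_le_of_le_ofReal (by positivity) hUv.le
  obtain ⟨R, δ, hδ, hw⟩ := good_all h (ε / 2) (by positivity)
  refine ⟨R, δ, hδ, fun s y hy => ?_⟩
  have h1 := hw s y hy
  rw [hint] at h1
  have h2 : ∑ n ∈ s, h (pt (y n)) - (s.card : ℂ) * ((∫ y : Fin d → Circ, g y : ℝ) : ℂ) =
      ((∑ n ∈ s, g (pt (y n)) - s.card * ∫ y : Fin d → Circ, g y : ℝ) : ℂ) := by
    push_cast
    rfl
  rw [h2, Complex.norm_real, Real.norm_eq_abs] at h1
  have h3 := (abs_le.1 h1).2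
  have h4 : ((s.filter (fun n => pt (y n) ∈ E)).card : ℝ) ≤ ∑ n ∈ s, g (pt (y n)) := by
    rw [Finset.card_filter]
    push_cast
    refine Finset.sum_le_sum fun n _ => ?_
    split_ifs with hm
    · have := hg1 hm
      simp only [Pi.one_apply] at this
      rw [this]
    · exact (hg01 _).1
  have h5 : (s.card : ℝ) * ∫ y : Fin d → Circ, g y ≤ s.card * (v + ε / 2) :=
    mul_le_mul_of_nonneg_left hintv (Nat.cast_nonneg _)
  linarith

/-- The volume of an arc. -/
theorem volume_arc (a c : ℝ) :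
    volume ((fun t : ℝ => (t : Circ)) '' Icc a c) ≤ ENNReal.ofReal (c - a) := by
  by_cases hac : c ≤ a + 1
  · have hcl : IsClosed ((fun t : ℝ => (t : Circ)) '' Icc a c) :=
      (isCompact_Icc.image (AddCircle.continuous_mk' (1 : ℝ))).isClosed
    have hmp := AddCircle.measurePreserving_mk (1 : ℝ) a
    have h1 := hmp.measure_preimage hcl.measurableSet.nullMeasurableSet
    have hsub : ((fun t : ℝ => (t : Circ)) ⁻¹' ((fun t : ℝ => (t : Circ)) '' Icc a c)) ∩
        Ioc a (a + 1) ⊆ Icc a c ∪ {a + 1} := by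
      rintro t ⟨⟨s, hs, hst⟩, ht⟩
      have h2 : ((s : ℝ) : Circ) = ((t : ℝ) : Circ) := hst
      have h3 : ((s - t : ℝ) : Circ) = 0 := by
        rw [AddCircle.coe_sub, h2, sub_self]
      rw [AddCircle.coe_eq_zero_iff] at h3
      obtain ⟨n, hn⟩ := h3
      rw [zsmul_eq_mul, mul_one] at hn
      have h4 : (-1 : ℝ) ≤ n := by rw [hn]; linarith [hs.1, ht.2]
      have h5 : (n : ℝ) < 1 := by rw [hn]; linarith [hs.2, ht.1]
      have h6 : -1 ≤ n := by exact_mod_cast h4
      have h7 : n < 1 := by exact_mod_cast h5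
      rcases (by omega : n = -1 ∨ n = 0) with h | h
      · right
        rw [h] at hn
        push_cast at hn
        have h8 : t = s + 1 := by linarith
        have h9 : s = a := by linarith [hs.1, ht.2]
        rw [Set.mem_singleton_iff]; linarith
      · left
        rw [h] at hn
        push_cast at hn
        have : t = s := by linarith
        rw [this]; exact hs
    rw [← h1]
    have h10 : MeasurableSet ((fun t : ℝ => (t : Circ)) ⁻¹' ((fun t : ℝ => (t : Circ)) '' Icc a c)) :=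
      hmp.measurable hcl.measurableSet
    calc (volume.restrict (Ioc a (a + 1)))
          ((fun t : ℝ => (t : Circ)) ⁻¹' ((fun t : ℝ => (t : Circ)) '' Icc a c))
        = volume (((fun t : ℝ => (t : Circ)) ⁻¹' ((fun t : ℝ => (t : Circ)) '' Icc a c)) ∩
            Ioc a (a + 1)) := Measure.restrict_apply h10
      _ ≤ volume (Icc a c ∪ {a + 1}) := measure_mono hsub
      _ ≤ volume (Icc a c) + volume {a + 1} := measure_union_le _ _
      _ = ENNReal.ofReal (c - a) := by rw [Real.volume_Icc, Real.volume_singleton, add_zero]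
  · push Not at hac
    calc volume ((fun t : ℝ => (t : Circ)) '' Icc a c) ≤ volume (univ : Set Circ) :=
          measure_mono (subset_univ _)
      _ = 1 := by simp
      _ ≤ ENNReal.ofReal (c - a) := by
          rw [← ENNReal.ofReal_one]
          exact ENNReal.ofReal_le_ofReal (by linarith)

lemma arc_closed (a c : ℝ) : IsClosed ((fun t : ℝ => (t : Circ)) '' Icc a c) :=
  (isCompact_Icc.image (AddCircle.continuous_mk' (1 : ℝ))).isClosed

/-- upper estimate in a box -/
lemma box_upper (a b : Fin d → ℝ) (hab : ∀ i, a i ≤ b i) (ε : ℝ) (hε : 0 < ε) :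
    ∃ (R : ℕ) (δ : ℝ), 0 < δ ∧ ∀ (s : Finset ℕ) (y : ℕ → Fin d → ℝ), Wy s y R δ →
      ((s.filter (fun n => ∀ i, Int.fract (y n i) ∈ Set.Ico (a i) (b i))).card : ℝ) ≤
        ((∏ i, (b i - a i)) + ε) * s.card := by
  classical
  obtain ⟨R, δ, hδ, h⟩ := closed_upper (E := Set.pi univ fun i => (fun t : ℝ => (t : Circ)) '' Icc (a i) (b i))
    (isClosed_set_pi fun i _ => arc_closed _ _) (∏ i, (b i - a i))
    (Finset.prod_nonneg fun i _ => sub_nonneg.2 (hab i)) (by
      rw [volume_pi_pi, ENNReal.ofReal_prod_of_nonneg fun i _ => sub_nonneg.2 (hab i)]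
      exact Finset.prod_le_prod' fun i _ => volume_arc _ _) ε hε
  refine ⟨R, δ, hδ, fun s y hy => le_trans ?_ (h s y hy)⟩
  refine Nat.cast_le.2 (Finset.card_le_card fun n hn => ?_)
  rw [Finset.mem_filter] at hn ⊢
  refine ⟨hn.1, fun i _ => ?_⟩
  have h1 := hn.2 i
  refine ⟨Int.fract (y n i), ⟨h1.1, h1.2.le⟩, ?_⟩
  show ((Int.fract (y n i) : ℝ) : Circ) = ((y n i : ℝ) : Circ)
  have h2 : (y n i : ℝ) = Int.fract (y n i) + (⌊y n i⌋ : ℝ) := (Int.fract_add_floor _).symm
  conv_rhs => rw [h2]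
  rw [AddCircle.coe_add]
  have h3 : (((⌊y n i⌋ : ℤ) : ℝ) : Circ) = 0 := by
    rw [AddCircle.coe_eq_zero_iff]
    exact ⟨⌊y n i⌋, by simp⟩
  rw [h3, add_zero]

/-- lower estimate in a box -/
lemma box_lower (a b : Fin d → ℝ) (ha : ∀ i, 0 ≤ a i) (hab : ∀ i, a i ≤ b i) (hb : ∀ i, b i ≤ 1)
    (ε : ℝ) (hε : 0 < ε) :
    ∃ (R : ℕ) (δ : ℝ), 0 < δ ∧ ∀ (s : Finset ℕ) (y : ℕ → Fin d → ℝ), Wy s y R δ →
      ((∏ i, (b i - a i)) - ε) * s.card ≤
      ((s.filter (fun n => ∀ i, Int.fract (y n i) ∈ Set.Ico (a i) (b i))).card : ℝ) := by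
  classical
  set U : Set (Fin d → Circ) :=
    Set.pi univ fun i => ((fun t : ℝ => (t : Circ)) '' Icc (b i) (a i + 1))ᶜ with hU
  have hUo : IsOpen U := isOpen_set_pi finite_univ fun i _ => (arc_closed _ _).isOpen_compl
  have hp0 : 0 ≤ ∏ i, (b i - a i) := Finset.prod_nonneg fun i _ => sub_nonneg.2 (hab i)
  have hp1 : ∏ i, (b i - a i) ≤ 1 :=
    Finset.prod_le_one (fun i _ => sub_nonneg.2 (hab i)) fun i _ => by linarith [ha i, hb i]
  have hUv : ENNReal.ofReal (∏ i, (b i - a i)) ≤ volume U := by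
    rw [hU, volume_pi_pi, ENNReal.ofReal_prod_of_nonneg fun i _ => sub_nonneg.2 (hab i)]
    refine Finset.prod_le_prod' fun i _ => ?_
    rw [prob_compl_eq_one_sub (arc_closed _ _).measurableSet]
    have h1 := volume_arc (b i) (a i + 1)
    refine le_trans ?_ (tsub_le_tsub_left h1 1)
    rw [← ENNReal.ofReal_one, ← ENNReal.ofReal_sub _ (by linarith [ha i, hb i])]
    exact ENNReal.ofReal_le_ofReal (by linarith)
  obtain ⟨R, δ, hδ, h⟩ := closed_upper (E := Uᶜ) hUo.isClosed_compl (1 - ∏ i, (b i - a i))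
    (by linarith) (by
      rw [prob_compl_eq_one_sub hUo.measurableSet, ENNReal.ofReal_sub _ hp0, ENNReal.ofReal_one]
      exact tsub_le_tsub_left hUv 1) ε hε
  refine ⟨R, δ, hδ, fun s y hy => ?_⟩
  have h1 : ((s.filter (fun n => pt (y n) ∈ Uᶜ)).card : ℝ) ≤
      (1 - ∏ i, (b i - a i) + ε) * s.card := by
    convert h s y hy
  have h2 : s.card ≤ (s.filter (fun n => pt (y n) ∈ Uᶜ)).card +
      (s.filter (fun n => ∀ i, Int.fract (y n i) ∈ Set.Ico (a i) (b i))).card := by
    rw [← Finset.card_filter_add_card_filter_not (s := s) (fun n => pt (y n) ∈ Uᶜ)]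
    refine Nat.add_le_add_left (Finset.card_le_card fun n hn => ?_) _
    rw [Finset.mem_filter] at hn ⊢
    refine ⟨hn.1, fun i => ?_⟩
    have h3 : pt (y n) ∈ U := not_not.1 hn.2
    have h4 := h3 i (mem_univ i)
    by_contra hcon
    apply h4
    have h5 : (y n i : ℝ) = Int.fract (y n i) + (⌊y n i⌋ : ℝ) := (Int.fract_add_floor _).symm
    have h6 : ∀ m : ℤ, ((Int.fract (y n i) + m : ℝ) : Circ) = ((y n i : ℝ) : Circ) := by
      intro m
      have h7 : (Int.fract (y n i) + m : ℝ) = y n i + ((m - ⌊y n i⌋ : ℤ) : ℝ) := by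
        push_cast
        unfold Int.fract
        ring
      rw [h7, AddCircle.coe_add]
      have h8 : (((m - ⌊y n i⌋ : ℤ) : ℝ) : Circ) = 0 := by
        rw [AddCircle.coe_eq_zero_iff]
        exact ⟨m - ⌊y n i⌋, by simp⟩
      rw [h8, add_zero]
    have h9 : Int.fract (y n i) < a i ∨ b i ≤ Int.fract (y n i) := by
      by_contra h9
      push Not at h9
      exact hcon ⟨h9.1, h9.2⟩
    have h10 := Int.fract_nonneg (y n i)
    have h11 := Int.fract_lt_one (y n i)
    rcases h9 with h9 | h9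
    · refine ⟨Int.fract (y n i) + ((1 : ℤ) : ℝ), ⟨?_, ?_⟩, h6 1⟩
      · push_cast; linarith [hb i]
      · push_cast; linarith
    · refine ⟨Int.fract (y n i) + ((0 : ℤ) : ℝ), ⟨?_, ?_⟩, h6 0⟩
      · push_cast; linarith
      · push_cast; linarith [ha i]
  have h3 : (s.card : ℝ) ≤ ((s.filter (fun n => pt (y n) ∈ Uᶜ)).card : ℝ) +
      ((s.filter (fun n => ∀ i, Int.fract (y n i) ∈ Set.Ico (a i) (b i))).card : ℝ) := by
    exact_mod_cast h2
  linarith

end Pool.Agent.Y30.PP
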