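import Pool.Agent.Y30.PP.Crit

/-!
# A finite Weyl criterion in several dimensions, uniformly in the boxes
-/

set_option autoImplicit false

namespace Pool.Agent.Y30.PP

open Finset

variable {d : ℕ}

lemma fin_good {ι : Type*} (I : Finset ι) (Q : ι → Finset ℕ → (ℕ → Fin d → ℝ) → Prop)
    (h : ∀ i ∈ I, ∃ (R : ℕ) (δ : ℝ), 0 < δ ∧ ∀ s y, Wy s y R δ → Q i s y) :
    ∃ (R : ℕ) (δ : ℝ), 0 < δ ∧ ∀ s y, Wy s y R δ → ∀ i ∈ I, Q i s y := by
  classical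
  induction I using Finset.induction_on with
  | empty => exact ⟨0, 1, one_pos, by simp⟩
  | insert a I ha ih =>
    obtain ⟨R₁, δ₁, h₁, H₁⟩ := ih fun i hi => h i (mem_insert_of_mem hi)
    obtain ⟨R₂, δ₂, h₂, H₂⟩ := h a (mem_insert_self _ _)
    refine ⟨max R₁ R₂, min δ₁ δ₂, lt_min h₁ h₂, fun s y hy i hi => ?_⟩
    rcases mem_insert.1 hi with rfl | hi
    · exact H₂ s y (hy.mono (le_max_right _ _) (min_le_right _ _))
    · exact H₁ s y (hy.mono (le_max_left _ _) (min_le_left _ _)) i hi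

lemma prod_close (u v : Fin d → ℝ) (hu0 : ∀ i, 0 ≤ u i) (hu1 : ∀ i, u i ≤ 1) (hv0 : ∀ i, 0 ≤ v i)
    (hv1 : ∀ i, v i ≤ 1) (t : ℝ) (ht : ∀ i, |u i - v i| ≤ t) :
    |∏ i, u i - ∏ i, v i| ≤ d * t := by
  have key : ∀ I : Finset (Fin d), |∏ i ∈ I, u i - ∏ i ∈ I, v i| ≤ I.card * t := by
    classical
    intro I
    induction I using Finset.induction_on with
    | empty => simp
    | insert a I ha ih =>
      rw [prod_insert ha, prod_insert ha, card_insert_of_notMem ha]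
      have e1 : u a * ∏ i ∈ I, u i - v a * ∏ i ∈ I, v i =
          u a * (∏ i ∈ I, u i - ∏ i ∈ I, v i) + (u a - v a) * ∏ i ∈ I, v i := by ring
      rw [e1]
      refine (abs_add_le _ _).trans ?_
      rw [abs_mul, abs_mul, abs_of_nonneg (hu0 a),
        abs_of_nonneg (prod_nonneg fun i _ => hv0 i : 0 ≤ ∏ i ∈ I, v i)]
      have h1 : ∏ i ∈ I, v i ≤ 1 := prod_le_one (fun i _ => hv0 i) fun i _ => hv1 i
      have h2 : u a * |∏ i ∈ I, u i - ∏ i ∈ I, v i| ≤ 1 * |∏ i ∈ I, u i - ∏ i ∈ I, v i| :=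
        mul_le_mul_of_nonneg_right (hu1 a) (abs_nonneg _)
      have h3 : |u a - v a| * ∏ i ∈ I, v i ≤ t * 1 :=
        mul_le_mul (ht a) h1 (prod_nonneg fun i _ => hv0 i) ((abs_nonneg _).trans (ht a))
      push_cast
      linarith
  have := key univ
  rwa [card_univ, Fintype.card_fin] at this

/-- **A finite Weyl criterion** -/
theorem crit (d : ℕ) (ε : ℝ) (hε : 0 < ε) :
    ∃ (R : ℕ) (δ : ℝ), 0 < δ ∧ ∀ (s : Finset ℕ) (y : ℕ → Fin d → ℝ), Wy s y R δ →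
      ∀ a b : Fin d → ℝ, (∀ i, 0 ≤ a i ∧ a i ≤ b i ∧ b i ≤ 1) →
      |((s.filter (fun n => ∀ i, Int.fract (y n i) ∈ Set.Ico (a i) (b i))).card : ℝ) -
        (∏ i, (b i - a i)) * s.card| ≤ ε * s.card := by
  classical
  obtain ⟨G, hG⟩ := exists_nat_gt (4 * d / ε)
  have hG0' : (0 : ℝ) < G := lt_of_le_of_lt (by positivity) hG
  have hG0 : 0 < G := by exact_mod_cast hG0'
  have hGd : (d : ℝ) * (2 / G) ≤ ε / 2 := by
    rw [div_lt_iff₀ hε] at hG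
    rw [mul_div_assoc', div_le_iff₀ hG0']
    nlinarith
  -- the grid boxes
  have key := fin_good (d := d) (univ : Finset ((Fin d → Fin (G + 1)) × (Fin d → Fin (G + 1))))
    (fun p s y => (∀ i, p.1 i ≤ p.2 i) →
      ((s.filter (fun n => ∀ i, Int.fract (y n i) ∈
        Set.Ico (((p.1 i : ℕ) : ℝ) / G) (((p.2 i : ℕ) : ℝ) / G))).card : ℝ) ≤
        ((∏ i, (((p.2 i : ℕ) : ℝ) / G - ((p.1 i : ℕ) : ℝ) / G)) + ε / 2) * s.card ∧
      ((∏ i, (((p.2 i : ℕ) : ℝ) / G - ((p.1 i : ℕ) : ℝ) / G)) - ε / 2) * s.card ≤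
      ((s.filter (fun n => ∀ i, Int.fract (y n i) ∈
        Set.Ico (((p.1 i : ℕ) : ℝ) / G) (((p.2 i : ℕ) : ℝ) / G))).card : ℝ)) (by
    intro p _
    by_cases hp : ∀ i, p.1 i ≤ p.2 i
    · have hle : ∀ i, ((p.1 i : ℕ) : ℝ) / G ≤ ((p.2 i : ℕ) : ℝ) / G := fun i =>
        div_le_div_of_nonneg_right (by exact_mod_cast hp i) hG0'.le
      obtain ⟨R₁, δ₁, h₁, H₁⟩ := box_upper (fun i => ((p.1 i : ℕ) : ℝ) / G)
        (fun i => ((p.2 i : ℕ) : ℝ) / G) hle (ε / 2) (by positivity)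
      obtain ⟨R₂, δ₂, h₂, H₂⟩ := box_lower (fun i => ((p.1 i : ℕ) : ℝ) / G)
        (fun i => ((p.2 i : ℕ) : ℝ) / G) (fun i => by positivity) hle (fun i => by
          rw [div_le_one hG0']
          exact_mod_cast Nat.lt_succ_iff.1 (p.2 i).2) (ε / 2) (by positivity)
      refine ⟨max R₁ R₂, min δ₁ δ₂, lt_min h₁ h₂, fun s y hy _ => ⟨?_, ?_⟩⟩
      · exact H₁ s y (hy.mono (le_max_left _ _) (min_le_left _ _))
      · exact H₂ s y (hy.mono (le_max_right _ _) (min_le_right _ _))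
    · exact ⟨0, 1, one_pos, fun s y _ h => absurd h hp⟩)
  obtain ⟨R, δ, hδ, h⟩ := key
  refine ⟨R, δ, hδ, fun s y hy a b hab => ?_⟩
  have hs0 : (0 : ℝ) ≤ s.card := Nat.cast_nonneg _
  have hGa : ∀ i, 0 ≤ (G : ℝ) * a i := fun i => mul_nonneg hG0'.le (hab i).1
  have hGb : ∀ i, 0 ≤ (G : ℝ) * b i := fun i => mul_nonneg hG0'.le ((hab i).1.trans (hab i).2.1)
  have hbG : ∀ i, ⌈(G : ℝ) * b i⌉₊ ≤ G := fun i => Nat.ceil_le.2 (by nlinarith [(hab i).2.2])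
  have haG : ∀ i, ⌈(G : ℝ) * a i⌉₊ ≤ G := fun i => Nat.ceil_le.2 (by nlinarith [(hab i).2.2, (hab i).2.1])
  have hfaG : ∀ i, ⌊(G : ℝ) * a i⌋₊ ≤ G := fun i => (Nat.floor_le_ceil _).trans (haG i)
  have hfbG : ∀ i, ⌊(G : ℝ) * b i⌋₊ ≤ G := fun i => (Nat.floor_le_ceil _).trans (hbG i)
  have hlen0 : ∀ i, 0 ≤ b i - a i := fun i => sub_nonneg.2 (hab i).2.1
  have hlen1 : ∀ i, b i - a i ≤ 1 := fun i => by linarith [(hab i).1, (hab i).2.2]
  rw [abs_le]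
  constructor
  · -- inner box
    have h1 := (h s y hy (fun i => ⟨⌈(G : ℝ) * a i⌉₊, Nat.lt_succ_of_le (haG i)⟩,
      fun i => ⟨max ⌈(G : ℝ) * a i⌉₊ ⌊(G : ℝ) * b i⌋₊, Nat.lt_succ_of_le (max_le (haG i) (hfbG i))⟩)
      (mem_univ _) (fun i => Fin.mk_le_mk.2 (le_max_left _ _))).2
    simp only at h1
    have h2 := prod_close (fun i => b i - a i)
      (fun i => ((max ⌈(G : ℝ) * a i⌉₊ ⌊(G : ℝ) * b i⌋₊ : ℕ) : ℝ) / G - ((⌈(G : ℝ) * a i⌉₊ : ℕ) : ℝ) / G)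
      hlen0 hlen1
      (fun i => sub_nonneg.2 (div_le_div_of_nonneg_right (by exact_mod_cast le_max_left _ _) hG0'.le))
      (fun i => by
        have e1 : ((max ⌈(G : ℝ) * a i⌉₊ ⌊(G : ℝ) * b i⌋₊ : ℕ) : ℝ) / G ≤ 1 := by
          rw [div_le_one hG0']
          exact_mod_cast max_le (haG i) (hfbG i)
        have e2 : 0 ≤ ((⌈(G : ℝ) * a i⌉₊ : ℕ) : ℝ) / G := by positivity
        linarith) (2 / G) (fun i => by
        have e1 := Nat.le_ceil ((G : ℝ) * a i)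
        have e2 := Nat.ceil_lt_add_one (hGa i)
        have e3 := Nat.floor_le (hGb i)
        have e4 := Nat.lt_floor_add_one ((G : ℝ) * b i)
        have e5 := hlen0 i
        have e6 : (b i - a i - (((max ⌈(G : ℝ) * a i⌉₊ ⌊(G : ℝ) * b i⌋₊ : ℕ) : ℝ) / G -
            ((⌈(G : ℝ) * a i⌉₊ : ℕ) : ℝ) / G)) = (G * (b i - a i) -
            (((max ⌈(G : ℝ) * a i⌉₊ ⌊(G : ℝ) * b i⌋₊ : ℕ) : ℝ) - ((⌈(G : ℝ) * a i⌉₊ : ℕ) : ℝ))) / G := by
          field_simp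
        rw [e6, abs_div, abs_of_pos hG0']
        refine div_le_div_of_nonneg_right ?_ hG0'.le
        have e7 : 0 ≤ (G : ℝ) * (b i - a i) := mul_nonneg hG0'.le e5
        rcases le_total ⌈(G : ℝ) * a i⌉₊ ⌊(G : ℝ) * b i⌋₊ with h3 | h3
        · rw [max_eq_right h3, abs_le]
          constructor <;> linarith
        · rw [max_eq_left h3, sub_self, sub_zero, abs_of_nonneg e7]
          have e8 : ((⌊(G : ℝ) * b i⌋₊ : ℕ) : ℝ) ≤ ((⌈(G : ℝ) * a i⌉₊ : ℕ) : ℝ) := by exact_mod_cast h3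
          linarith)
    have h3 : ((s.filter (fun n => ∀ i, Int.fract (y n i) ∈
        Set.Ico (((⌈(G : ℝ) * a i⌉₊ : ℕ) : ℝ) / G)
          (((max ⌈(G : ℝ) * a i⌉₊ ⌊(G : ℝ) * b i⌋₊ : ℕ) : ℝ) / G))).card : ℝ) ≤
        ((s.filter (fun n => ∀ i, Int.fract (y n i) ∈ Set.Ico (a i) (b i))).card : ℝ) := by
      refine Nat.cast_le.2 (card_le_card fun n hn => ?_)
      rw [mem_filter] at hn ⊢
      refine ⟨hn.1, fun i => ?_⟩
      obtain ⟨g1, g2⟩ := hn.2 i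
      rcases le_total ⌈(G : ℝ) * a i⌉₊ ⌊(G : ℝ) * b i⌋₊ with h3 | h3
      · rw [max_eq_right h3] at g2
        constructor
        · refine le_trans ?_ g1
          rw [le_div_iff₀ hG0', mul_comm]
          exact Nat.le_ceil _
        · refine lt_of_lt_of_le g2 ?_
          rw [div_le_iff₀ hG0', mul_comm (b i)]
          exact Nat.floor_le (hGb i)
      · rw [max_eq_left h3] at g2
        exact absurd g2 (not_lt.2 g1)
    have h4 := (abs_le.1 h2).2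
    have h5 : (∏ i, (b i - a i)) - ε ≤ (∏ i, (((max ⌈(G : ℝ) * a i⌉₊ ⌊(G : ℝ) * b i⌋₊ : ℕ) : ℝ) / G -
        ((⌈(G : ℝ) * a i⌉₊ : ℕ) : ℝ) / G)) - ε / 2 := by linarith
    have h6 := mul_le_mul_of_nonneg_right h5 hs0
    linarith
  · -- outer box
    have h1 := (h s y hy (fun i => ⟨⌊(G : ℝ) * a i⌋₊, Nat.lt_succ_of_le (hfaG i)⟩,
      fun i => ⟨⌈(G : ℝ) * b i⌉₊, Nat.lt_succ_of_le (hbG i)⟩)
      (mem_univ _) (fun i => Fin.mk_le_mk.2 (by
        refine (Nat.floor_le_floor ?_).trans (Nat.floor_le_ceil _)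
        exact mul_le_mul_of_nonneg_left (hab i).2.1 hG0'.le))).1
    simp only at h1
    have h2 := prod_close (fun i => b i - a i)
      (fun i => ((⌈(G : ℝ) * b i⌉₊ : ℕ) : ℝ) / G - ((⌊(G : ℝ) * a i⌋₊ : ℕ) : ℝ) / G)
      hlen0 hlen1
      (fun i => by
        have e1 := Nat.le_ceil ((G : ℝ) * b i)
        have e2 := Nat.floor_le (hGa i)
        have e3 := mul_nonneg hG0'.le (hlen0 i)
        rw [sub_nonneg]
        exact div_le_div_of_nonneg_right (by linarith) hG0'.le)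
      (fun i => by
        have e1 : ((⌈(G : ℝ) * b i⌉₊ : ℕ) : ℝ) / G ≤ 1 := by
          rw [div_le_one hG0']
          exact_mod_cast hbG i
        have e2 : 0 ≤ ((⌊(G : ℝ) * a i⌋₊ : ℕ) : ℝ) / G := by positivity
        linarith) (2 / G) (fun i => by
        have e1 := Nat.floor_le (hGa i)
        have e2 := Nat.lt_floor_add_one ((G : ℝ) * a i)
        have e3 := Nat.le_ceil ((G : ℝ) * b i)
        have e4 := Nat.ceil_lt_add_one (hGb i)
        have e6 : (b i - a i - (((⌈(G : ℝ) * b i⌉₊ : ℕ) : ℝ) / G -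
            ((⌊(G : ℝ) * a i⌋₊ : ℕ) : ℝ) / G)) = (G * (b i - a i) -
            (((⌈(G : ℝ) * b i⌉₊ : ℕ) : ℝ) - ((⌊(G : ℝ) * a i⌋₊ : ℕ) : ℝ))) / G := by
          field_simp
        rw [e6, abs_div, abs_of_pos hG0']
        refine div_le_div_of_nonneg_right ?_ hG0'.le
        rw [abs_le]
        constructor <;> linarith)
    have h3 : ((s.filter (fun n => ∀ i, Int.fract (y n i) ∈ Set.Ico (a i) (b i))).card : ℝ) ≤
        ((s.filter (fun n => ∀ i, Int.fract (y n i) ∈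
        Set.Ico (((⌊(G : ℝ) * a i⌋₊ : ℕ) : ℝ) / G) (((⌈(G : ℝ) * b i⌉₊ : ℕ) : ℝ) / G))).card : ℝ) := by
      refine Nat.cast_le.2 (card_le_card fun n hn => ?_)
      rw [mem_filter] at hn ⊢
      refine ⟨hn.1, fun i => ?_⟩
      obtain ⟨g1, g2⟩ := hn.2 i
      constructor
      · refine le_trans ?_ g1
        rw [div_le_iff₀ hG0', mul_comm (a i)]
        exact Nat.floor_le (hGa i)
      · refine lt_of_lt_of_le g2 ?_
        rw [le_div_iff₀ hG0', mul_comm]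
        exact Nat.le_ceil _
    have h4 := (abs_le.1 h2).1
    have h5 : (∏ i, (((⌈(G : ℝ) * b i⌉₊ : ℕ) : ℝ) / G -
        ((⌊(G : ℝ) * a i⌋₊ : ℕ) : ℝ) / G)) + ε / 2 ≤ (∏ i, (b i - a i)) + ε := by linarith
    have h6 := mul_le_mul_of_nonneg_right h5 hs0
    linarith

end Pool.Agent.Y30.PP
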