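import Mathlib

/-!
# Minors of the matrix `(X ^ (j_l i))` and their linear independence
-/

set_option autoImplicit false

namespace Pool.Agent.Y30.PP

open Polynomial Finset Matrix

/-- the product of the entries and of their differences -/
lemma det_pow_succ {R : Type*} [CommRing R] {k : ℕ} (u : Fin k → R) :
    (Matrix.of fun t i : Fin k => u t ^ ((i : ℕ) + 1)).det =
      (∏ t, u t) * ∏ t : Fin k, ∏ t' ∈ Finset.Ioi t, (u t' - u t) := by
  have h1 : (Matrix.of fun t i : Fin k => u t ^ ((i : ℕ) + 1)) =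
      Matrix.of fun t i : Fin k => u t * (Matrix.vandermonde u) t i := by
    ext t i
    simp only [Matrix.of_apply, Matrix.vandermonde_apply]
    ring
  rw [h1, Matrix.det_mul_column, Matrix.det_vandermonde]

/-- the signed minors -/
noncomputable def S {k : ℕ} (j : Fin (k + 1) → ℕ) (l : Fin (k + 1)) : ℤ[X] :=
  (-1) ^ (l : ℕ) * (Matrix.of fun t i : Fin k =>
    ((X : ℤ[X]) ^ j (l.succAbove t)) ^ ((i : ℕ) + 1)).det

lemma relation {k : ℕ} (v : Fin (k + 1) → ℝ) (y : Fin k → ℝ) :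
    ∑ l : Fin (k + 1), (-1 : ℝ) ^ (l : ℕ) * (∑ i : Fin k, y i * v l ^ ((i : ℕ) + 1)) *
      (Matrix.of fun t i : Fin k => v (l.succAbove t) ^ ((i : ℕ) + 1)).det = 0 := by
  set M : Matrix (Fin (k + 1)) (Fin (k + 1)) ℝ :=
    Matrix.of fun l => Fin.cons (∑ i : Fin k, y i * v l ^ ((i : ℕ) + 1))
      (fun i : Fin k => v l ^ ((i : ℕ) + 1)) with hM
  have h0 : M.det = 0 := by
    rw [← Matrix.exists_mulVec_eq_zero_iff]
    refine ⟨Fin.cons 1 (fun i => -(y i)), ?_, ?_⟩
    · intro h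
      have := congrFun h 0
      simp at this
    · ext l
      simp only [Matrix.mulVec, dotProduct, Fin.sum_univ_succ, hM, Matrix.of_apply, Fin.cons_zero,
        Fin.cons_succ, Pi.zero_apply, mul_one]
      rw [← sum_add_distrib]
      refine sum_eq_zero fun i _ => ?_
      ring
  rw [Matrix.det_succ_column_zero] at h0
  rw [← h0]
  refine sum_congr rfl fun l _ => ?_
  congr 1

/-- evaluation of the minors -/
lemma S_eval {k : ℕ} (j : Fin (k + 1) → ℕ) (l : Fin (k + 1)) (x : ℝ) :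
    aeval x (S j l) = (-1 : ℝ) ^ (l : ℕ) *
      (Matrix.of fun t i : Fin k => (x ^ j (l.succAbove t)) ^ ((i : ℕ) + 1)).det := by
  unfold S
  rw [map_mul, map_pow, map_neg, map_one, det_pow_succ, det_pow_succ]
  simp only [map_mul, map_prod, map_pow, map_sub, aeval_X]

lemma relation_S {k : ℕ} (j : Fin (k + 1) → ℕ) (x : ℝ) (y : Fin k → ℝ) :
    ∑ l : Fin (k + 1), (∑ i : Fin k, y i * (x ^ j l) ^ ((i : ℕ) + 1)) * aeval x (S j l) = 0 := by
  rw [← relation (fun l => x ^ j l) y]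
  refine sum_congr rfl fun l _ => ?_
  rw [S_eval]
  ring

/-- the degree of the minors -/
noncomputable def dg {k : ℕ} (a : Fin k → ℕ) : ℕ :=
  ∑ t, a t + ∑ t : Fin k, ∑ t' ∈ Finset.Ioi t, a t'

lemma monic_fac {a b : ℕ} (h : a < b) : ((X : ℤ[X]) ^ b - X ^ a).Monic := by
  refine (monic_X_pow b).sub_of_left ?_
  rw [degree_X_pow, degree_X_pow]
  exact_mod_cast h

lemma natDegree_fac {a b : ℕ} (h : a < b) : ((X : ℤ[X]) ^ b - X ^ a).natDegree = b := by
  rw [natDegree_sub_eq_left_of_natDegree_lt]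
  · exact natDegree_X_pow b
  · rw [natDegree_X_pow, natDegree_X_pow]; exact h

lemma minor_monic {k : ℕ} (a : Fin k → ℕ) (ha : StrictMono a) :
    ((Matrix.of fun t i : Fin k => ((X : ℤ[X]) ^ a t) ^ ((i : ℕ) + 1)).det).Monic ∧
    ((Matrix.of fun t i : Fin k => ((X : ℤ[X]) ^ a t) ^ ((i : ℕ) + 1)).det).natDegree = dg a := by
  rw [det_pow_succ]
  have h1 : (∏ t : Fin k, (X : ℤ[X]) ^ a t).Monic := monic_prod_of_monic _ _ fun t _ => monic_X_pow _
  have h2 : ∀ t : Fin k, (∏ t' ∈ Finset.Ioi t, ((X : ℤ[X]) ^ a t' - X ^ a t)).Monic := fun t =>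
    monic_prod_of_monic _ _ fun t' ht' => monic_fac (ha (Finset.mem_Ioi.1 ht'))
  have h3 : (∏ t : Fin k, ∏ t' ∈ Finset.Ioi t, ((X : ℤ[X]) ^ a t' - X ^ a t)).Monic :=
    monic_prod_of_monic _ _ fun t _ => h2 t
  refine ⟨h1.mul h3, ?_⟩
  rw [h1.natDegree_mul h3, natDegree_prod_of_monic _ _ (fun t _ => monic_X_pow _),
    natDegree_prod_of_monic _ _ (fun t _ => h2 t)]
  unfold dg
  congr 1
  · exact sum_congr rfl fun t _ => natDegree_X_pow _
  · refine sum_congr rfl fun t _ => ?_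
    rw [natDegree_prod_of_monic _ _ (fun t' ht' => monic_fac (ha (Finset.mem_Ioi.1 ht')))]
    exact sum_congr rfl fun t' ht' => natDegree_fac (ha (Finset.mem_Ioi.1 ht'))

lemma succAbove_le {k : ℕ} {l l' : Fin (k + 1)} (h : l ≤ l') (t : Fin k) :
    l'.succAbove t ≤ l.succAbove t := by
  simp only [Fin.succAbove, Fin.lt_def, Fin.val_castSucc, Fin.le_def] at *
  split_ifs with h1 h2 h2
  · exact le_rfl
  · simp
  · omega
  · exact le_rfl

lemma dg_lt {k : ℕ} (j : Fin (k + 1) → ℕ) (hj : StrictMono j) {l l' : Fin (k + 1)} (h : l < l') :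
    dg (fun t => j (l'.succAbove t)) < dg (fun t => j (l.succAbove t)) := by
  unfold dg
  refine add_lt_add_of_lt_of_le ?_ ?_
  · have hl : (l : ℕ) < k := by
      have h1 : (l : ℕ) < l' := h
      have := l'.2
      omega
    refine sum_lt_sum (fun t _ => hj.monotone (succAbove_le h.le t)) ⟨⟨l, hl⟩, mem_univ _, hj ?_⟩
    have h1 : (l : ℕ) < l' := h
    simp only [Fin.succAbove, Fin.lt_def, Fin.val_castSucc]
    rw [if_pos h1, if_neg (lt_irrefl _)]
    simp
  · exact sum_le_sum fun t _ => sum_le_sum fun t' _ => hj.monotone (succAbove_le h.le t')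

lemma S_coeff {k : ℕ} (j : Fin (k + 1) → ℕ) (hj : StrictMono j) (l : Fin (k + 1)) :
    (S j l).coeff (dg (fun t => j (l.succAbove t))) = (-1) ^ (l : ℕ) := by
  obtain ⟨h1, h2⟩ := minor_monic (fun t => j (l.succAbove t))
    (hj.comp (Fin.strictMono_succAbove l))
  have h3 : (S j l) = C ((-1) ^ (l : ℕ)) * (Matrix.of fun t i : Fin k =>
      ((X : ℤ[X]) ^ j (l.succAbove t)) ^ ((i : ℕ) + 1)).det := by
    unfold S
    simp
  rw [h3, coeff_C_mul, ← h2, h1.coeff_natDegree, mul_one]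

lemma S_coeff_zero {k : ℕ} (j : Fin (k + 1) → ℕ) (hj : StrictMono j) {l l' : Fin (k + 1)}
    (h : l < l') : (S j l').coeff (dg (fun t => j (l.succAbove t))) = 0 := by
  obtain ⟨h1, h2⟩ := minor_monic (fun t => j (l'.succAbove t))
    (hj.comp (Fin.strictMono_succAbove l'))
  have h3 : (S j l') = C ((-1) ^ (l' : ℕ)) * (Matrix.of fun t i : Fin k =>
      ((X : ℤ[X]) ^ j (l'.succAbove t)) ^ ((i : ℕ) + 1)).det := by
    unfold S
    simp
  rw [h3, coeff_C_mul, coeff_eq_zero_of_natDegree_lt, mul_zero]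
  rw [h2]
  exact dg_lt j hj h

/-- the minors are linearly independent over the integers -/
lemma S_ind {k : ℕ} (j : Fin (k + 1) → ℕ) (hj : StrictMono j) (b : Fin (k + 1) → ℤ) (hb : b ≠ 0) :
    ∑ l, C (b l) * S j l ≠ 0 := by
  classical
  have hne : (univ.filter fun l => b l ≠ 0).Nonempty := by
    by_contra h
    rw [not_nonempty_iff_eq_empty, filter_eq_empty_iff] at h
    apply hb
    ext l
    have := h (mem_univ l)
    simpa using this
  set l₀ := (univ.filter fun l => b l ≠ 0).min' hne with hl₀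
  have h1 : b l₀ ≠ 0 := by
    have := min'_mem _ hne
    rw [← hl₀, mem_filter] at this
    exact this.2
  have h2 : ∀ l < l₀, b l = 0 := by
    intro l hl
    by_contra h
    have := min'_le (univ.filter fun l => b l ≠ 0) l (by simpa using h)
    exact absurd (hl₀ ▸ this) (not_le.2 hl)
  intro h0
  have h3 := congrArg (fun p => p.coeff (dg (fun t => j (l₀.succAbove t)))) h0
  simp only [finsetSum_coeff, coeff_C_mul, coeff_zero] at h3
  rw [sum_eq_single l₀] at h3
  · rw [S_coeff j hj] at h3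
    rcases mul_eq_zero.1 h3 with h | h
    · exact h1 h
    · exact pow_ne_zero _ (by norm_num) h
  · intro l _ hl
    rcases lt_or_gt_of_ne hl with h | h
    · rw [h2 l h, zero_mul]
    · rw [S_coeff_zero j hj h, mul_zero]
  · intro h; exact absurd (mem_univ _) h

end Pool.Agent.Y30.PP
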