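import Pool.Agent.Y30.PP.Win
import Pool.Agent.Y30.PP.Count

/-!
# Mean square of the Weyl sums of the dilates of `P(x ^ n)`
-/

set_option autoImplicit false

namespace Pool.Agent.Y30.PP

open Polynomial Finset
open Pool.Agent.TH456.TM (MeasT)

/-- mean square of the weighted Weyl sums over short blocks of exponents -/
theorem mean (x : ℝ) (hx1 : 1 < |x|) (hx : MeasT (x : ℂ)) (k : ℕ) (ε : ℝ) (hε : 0 < ε) :
    ∃ (A : ℝ) (K₀ : ℕ), 0 ≤ A ∧ ∀ K, K₀ ≤ K → ∀ (M : ℕ) (T : ℝ) (P : ℝ[X]), Ad k T P →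
      ∀ H : ℕ, (T * Real.exp ((M + K : ℕ) : ℝ)) ^ A ≤ H → ∀ z : ℕ → ℂ, (∀ n, ‖z n‖ ≤ 1) →
      ∑ j ∈ range H, ‖∑ n ∈ Ioc M (M + K), z n * ee (j * P.eval (x ^ n))‖ ^ 2 ≤
        ε * (K : ℝ) ^ 2 * H := by
  classical
  obtain ⟨L, hL⟩ := exists_nat_gt (8 * k / ε)
  obtain ⟨A, hA, h⟩ := win x hx1 hx k L
  obtain ⟨K₀, hK₀⟩ := exists_nat_gt ((4 + 8 * k) / ε)
  set A' : ℝ := A + |Real.log ε| with hA'
  refine ⟨A', max K₀ 1, by positivity, fun K hK M T P hP H hH z hz => ?_⟩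
  have hK1 : 1 ≤ K := le_trans (le_max_right _ _) hK
  have hKR : (1 : ℝ) ≤ K := by exact_mod_cast hK1
  have hKK₀ : (4 + 8 * k) / ε < K := lt_of_lt_of_le hK₀ (by exact_mod_cast le_trans (le_max_left _ _) hK)
  set Q : ℝ := T * Real.exp ((M + K : ℕ) : ℝ) with hQ
  have hQe : Real.exp 1 ≤ Q := by
    rw [hQ]
    have h1 : Real.exp 1 ≤ Real.exp ((M + K : ℕ) : ℝ) := by
      apply Real.exp_le_exp.2
      exact_mod_cast (by omega : 1 ≤ M + K)
    have h2 : 0 < Real.exp ((M + K : ℕ) : ℝ) := Real.exp_pos _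
    have := hP.one
    nlinarith
  have hQ0 : 0 < Q := lt_of_lt_of_le (Real.exp_pos 1) hQe
  set η : ℝ := Q ^ (-A) with hη
  have hη0 : 0 < η := Real.rpow_pos_of_pos hQ0 _
  have h1 := mean_sq M K H (k * (K / (L + 1) + 1)) z hz (fun n => P.eval (x ^ n)) η hη0 (by
    intro d hd
    refine sparse k L M K _ (filter_subset _ _) ?_
    intro n hn hnZ
    by_contra hcon
    push Not at hcon
    refine h T P hP d (M + K) hd n hn hcon ?_ ?_
    · have := (mem_filter.1 (hnZ (Fin.last k))).2.1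
      exact (mem_Ioc.1 this).2
    · intro l
      exact (mem_filter.1 (hnZ l)).2.2)
  refine h1.trans ?_
  -- the first term
  have e1 : ((k * (K / (L + 1) + 1) : ℕ) : ℝ) ≤ k * (K / (L + 1)) + k := by
    push_cast
    have : ((K / (L + 1) : ℕ) : ℝ) ≤ K / (L + 1) := by
      have := @Nat.cast_div_le ℝ _ _ _ K (L + 1)
      push_cast at this
      exact this
    have hk : (0 : ℝ) ≤ k := Nat.cast_nonneg _
    nlinarith
  have e2 : (k : ℝ) * (K / (L + 1)) ≤ ε / 8 * K := by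
    have h2 : (0 : ℝ) < (L : ℝ) + 1 := by positivity
    have h3 : 8 * (k : ℝ) ≤ ε * (L + 1) := by
      rw [div_lt_iff₀ hε] at hL
      nlinarith
    rw [mul_div_assoc', div_le_iff₀ h2]
    nlinarith
  have e3 : (K : ℝ) + 2 * K * ((k * (K / (L + 1) + 1) : ℕ) : ℝ) ≤ ε / 2 * (K : ℝ) ^ 2 := by
    have h2 : (K : ℝ) + 2 * K * ((k * (K / (L + 1) + 1) : ℕ) : ℝ) ≤
        K + 2 * K * (ε / 8 * K + k) := by
      have h3 := e1.trans (add_le_add_left e2 _)
      gcongr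
    have h4 : 4 + 8 * (k : ℝ) ≤ ε * K := by
      rw [div_lt_iff₀ hε] at hKK₀
      linarith
    nlinarith
  -- the second term
  have e4 : 1 / (2 * η) ≤ ε / 2 * H := by
    have h2 : 1 / η = Q ^ A := by
      rw [hη, Real.rpow_neg hQ0.le, one_div, inv_inv]
    have h3 : 1 / ε ≤ Q ^ |Real.log ε| := by
      calc 1 / ε = Real.exp (-Real.log ε) := by rw [Real.exp_neg, Real.exp_log hε, one_div]
        _ ≤ Real.exp |Real.log ε| := Real.exp_le_exp.2 (neg_le_abs _)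
        _ = (Real.exp 1) ^ |Real.log ε| := by rw [← Real.exp_mul, one_mul]
        _ ≤ Q ^ |Real.log ε| := Real.rpow_le_rpow (Real.exp_pos 1).le hQe (abs_nonneg _)
    have h4 : Q ^ A * (1 / ε) ≤ H := by
      refine le_trans ?_ hH
      rw [hA', Real.rpow_add hQ0]
      exact mul_le_mul_of_nonneg_left h3 (by positivity)
    have h5 : Q ^ A ≤ ε * H := by
      rw [mul_one_div, div_le_iff₀ hε] at h4
      linarith
    calc 1 / (2 * η) = 1 / η / 2 := by field_simp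
      _ ≤ ε * H / 2 := by rw [h2]; linarith
      _ = _ := by ring
  have hH0 : (0 : ℝ) ≤ H := Nat.cast_nonneg _
  calc (H : ℝ) * (K + 2 * K * ((k * (K / (L + 1) + 1) : ℕ) : ℝ)) + K * K * (1 / (2 * η))
      ≤ H * (ε / 2 * (K : ℝ) ^ 2) + K * K * (ε / 2 * H) := by gcongr
    _ = ε * (K : ℝ) ^ 2 * H := by ring

end Pool.Agent.Y30.PP
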