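import Pool.Agent.Y30.PP.Crit2
import Pool.Agent.Y30.PP.Mean

/-!
# Equidistribution of most dilates, uniformly in the polynomials and the set of exponents
-/

set_option autoImplicit false

namespace Pool.Agent.Y30.PP

open Polynomial Finset
open Pool.Agent.TH456.TM (MeasT)

open Classical in
/-- **Equidistribution of most dilates** -/
theorem equi2 (x : ℝ) (hx1 : 1 < |x|) (hx : MeasT (x : ℂ)) (k d : ℕ) (ε : ℝ) (hε : 0 < ε) :
    ∃ (A : ℝ) (K₀ R : ℕ), 0 ≤ A ∧ ∀ K, K₀ ≤ K → ∀ (M : ℕ) (s : Finset ℕ), s ⊆ Ioc M (M + K) →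
      ε * K ≤ s.card → ∀ (T : ℝ) (P : Fin d → ℝ[X]), 1 ≤ T → (∀ a, (P a).natDegree ≤ k) →
      (∀ a i, 1 ≤ i → |(P a).coeff i| ≤ T) →
      (∀ r : Fin d → ℤ, r ≠ 0 → (∀ a, |r a| ≤ (R : ℤ)) →
        ∃ i, 1 ≤ i ∧ 1 / T ≤ |∑ a, (r a : ℝ) * (P a).coeff i|) →
      ∀ H : ℕ, (T * Real.exp ((M + K : ℕ) : ℝ)) ^ A ≤ H →
      ∀ h₀ : ℝ, (((range H).filter fun j : ℕ => ∃ a b : Fin d → ℝ,
        (∀ i, 0 ≤ a i ∧ a i ≤ b i ∧ b i ≤ 1) ∧
        ε * s.card < |((s.filter fun n => ∀ i,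
          Int.fract ((h₀ + j) * (P i).eval (x ^ n)) ∈ Set.Ico (a i) (b i)).card : ℝ) -
          (∏ i, (b i - a i)) * s.card|).card : ℝ) ≤ ε * H := by
  obtain ⟨R, δ, hδ, hcrit⟩ := crit d ε hε
  set 𝓡 : Finset (Fin d → ℤ) :=
    (Fintype.piFinset fun _ : Fin d => Finset.Icc (-(R : ℤ)) R).filter (· ≠ 0) with h𝓡
  set ε' : ℝ := ε * (δ * ε) ^ 2 / ((𝓡.card : ℝ) + 1) with hε'
  have hε'0 : 0 < ε' := by positivity
  obtain ⟨A', K₀, hA', hmean⟩ := mean x hx1 hx k ε' hε'0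
  set c : ℝ := (d : ℝ) * R + 1 with hc
  have hc1 : 1 ≤ c := by
    rw [hc]
    have : (0 : ℝ) ≤ (d : ℝ) * R := by positivity
    linarith
  have hlc : 0 ≤ Real.log c := Real.log_nonneg hc1
  refine ⟨A' * (1 + Real.log c), max K₀ 1, R, by positivity,
    fun K hK M s hsM hsK T P hT1 hPk hPT hPR H hH h₀ => ?_⟩
  set Pr : (Fin d → ℤ) → ℝ[X] := fun r => ∑ a, C (r a : ℝ) * P a with hPr
  have hPrk : ∀ r, (Pr r).natDegree ≤ k := by
    intro r
    refine natDegree_sum_le_of_forall_le _ _ fun a _ => ?_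
    exact (natDegree_C_mul_le _ _).trans (hPk a)
  have hPrc : ∀ r i, (Pr r).coeff i = ∑ a, (r a : ℝ) * (P a).coeff i := by
    intro r i
    simp only [hPr, finsetSum_coeff, coeff_C_mul]
  have hAd : ∀ r ∈ 𝓡, Ad k (c * T) (Pr r) := by
    intro r hr
    rw [h𝓡, mem_filter, Fintype.mem_piFinset] at hr
    have hrR : ∀ a, |r a| ≤ (R : ℤ) := fun a => abs_le.2 (Finset.mem_Icc.1 (hr.1 a))
    refine ⟨hPrk r, one_le_mul_of_one_le_of_one_le hc1 hT1, fun i hi => ?_, ?_⟩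
    · rw [hPrc]
      refine (abs_sum_le_sum_abs _ _).trans ?_
      have h1 : ∀ a, |(r a : ℝ) * (P a).coeff i| ≤ R * T := by
        intro a
        rw [abs_mul]
        have h2 : |(r a : ℝ)| ≤ R := by
          have := hrR a
          rw [← Int.cast_abs]
          exact_mod_cast this
        exact mul_le_mul h2 (hPT a i hi) (abs_nonneg _) (Nat.cast_nonneg _)
      refine (sum_le_sum fun a _ => h1 a).trans ?_
      rw [sum_const, card_univ, Fintype.card_fin, nsmul_eq_mul, hc]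
      nlinarith
    · obtain ⟨i, hi, h1⟩ := hPR r hr.2 hrR
      refine ⟨i, hi, ?_⟩
      rw [hPrc]
      refine le_trans ?_ h1
      exact one_div_le_one_div_of_le (by linarith) (by nlinarith)
  have hK1 : 1 ≤ K := le_trans (le_max_right _ _) hK
  have hKR : (1 : ℝ) ≤ K := by exact_mod_cast hK1
  have hsc0 : (0 : ℝ) < s.card := lt_of_lt_of_le (by positivity) hsK
  have hH' : (c * T * Real.exp ((M + K : ℕ) : ℝ)) ^ A' ≤ H := by
    refine le_trans ?_ hH
    have hE : (1 : ℝ) ≤ ((M + K : ℕ) : ℝ) := by exact_mod_cast (by omega : 1 ≤ M + K)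
    have hQe : Real.exp 1 ≤ T * Real.exp ((M + K : ℕ) : ℝ) := by
      have h1 : Real.exp 1 ≤ Real.exp ((M + K : ℕ) : ℝ) := Real.exp_le_exp.2 hE
      have h2 : 0 < Real.exp ((M + K : ℕ) : ℝ) := Real.exp_pos _
      nlinarith
    have hQ0 : 0 < T * Real.exp ((M + K : ℕ) : ℝ) := lt_of_lt_of_le (Real.exp_pos _) hQe
    have h1 : c ≤ (T * Real.exp ((M + K : ℕ) : ℝ)) ^ Real.log c := by
      calc c = Real.exp (Real.log c) := (Real.exp_log (by linarith)).symm
        _ = (Real.exp 1) ^ Real.log c := by rw [← Real.exp_mul, one_mul]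
        _ ≤ _ := Real.rpow_le_rpow (Real.exp_pos 1).le hQe hlc
    calc (c * T * Real.exp ((M + K : ℕ) : ℝ)) ^ A'
        ≤ ((T * Real.exp ((M + K : ℕ) : ℝ)) ^ (1 + Real.log c)) ^ A' := by
          refine Real.rpow_le_rpow (by positivity) ?_ hA'
          rw [Real.rpow_add hQ0, Real.rpow_one]
          calc c * T * Real.exp ((M + K : ℕ) : ℝ) = (T * Real.exp ((M + K : ℕ) : ℝ)) * c := by ring
            _ ≤ _ := mul_le_mul_of_nonneg_left h1 hQ0.le
      _ = (T * Real.exp ((M + K : ℕ) : ℝ)) ^ (A' * (1 + Real.log c)) := by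
          rw [← Real.rpow_mul hQ0.le, mul_comm A']
  set W : (Fin d → ℤ) → ℕ → ℂ := fun r j =>
    ∑ n ∈ s, ee (∑ a, (r a : ℝ) * ((h₀ + j) * (P a).eval (x ^ n))) with hW
  have hWeq : ∀ r j, W r j = ∑ n ∈ Ioc M (M + K),
      (if n ∈ s then ee (h₀ * (Pr r).eval (x ^ n)) else 0) * ee (j * (Pr r).eval (x ^ n)) := by
    intro r j
    rw [hW]
    simp only [ite_mul, zero_mul]
    rw [← sum_filter, filter_mem_eq_inter, inter_eq_right.2 hsM]
    refine sum_congr rfl fun n _ => ?_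
    rw [← ee_add]
    congr 1
    have e1 : (Pr r).eval (x ^ n) = ∑ a, (r a : ℝ) * (P a).eval (x ^ n) := by
      simp only [hPr, eval_finsetSum, eval_mul, eval_C]
    rw [e1, ← add_mul, mul_sum]
    exact sum_congr rfl fun a _ => by ring
  -- the bad multipliers for one frequency
  have hbad : ∀ r ∈ 𝓡, (((range H).filter fun j : ℕ => δ * s.card < ‖W r j‖).card : ℝ) ≤
      ε' / (δ * ε) ^ 2 * H := by
    intro r hr
    have h1 := hmean K (le_trans (le_max_left _ _) hK) M (c * T) (Pr r) (hAd r hr) H hH'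
      (fun n => if n ∈ s then ee (h₀ * (Pr r).eval (x ^ n)) else 0) (fun n => by
        split_ifs
        · exact (ee_norm _).le
        · rw [norm_zero]; exact zero_le_one)
    have h2 : (((range H).filter fun j : ℕ => δ * s.card < ‖W r j‖).card : ℝ) * (δ * s.card) ^ 2 ≤
        ∑ j ∈ range H, ‖W r j‖ ^ 2 := by
      calc (((range H).filter fun j : ℕ => δ * s.card < ‖W r j‖).card : ℝ) * (δ * s.card) ^ 2
          = ∑ j ∈ (range H).filter fun j : ℕ => δ * s.card < ‖W r j‖, (δ * s.card) ^ 2 := by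
            rw [sum_const, nsmul_eq_mul]
        _ ≤ ∑ j ∈ (range H).filter fun j : ℕ => δ * s.card < ‖W r j‖, ‖W r j‖ ^ 2 := by
            refine sum_le_sum fun j hj => ?_
            exact pow_le_pow_left₀ (by positivity) (mem_filter.1 hj).2.le 2
        _ ≤ ∑ j ∈ range H, ‖W r j‖ ^ 2 :=
            sum_le_sum_of_subset_of_nonneg (filter_subset _ _) fun _ _ _ => by positivity
    have h3 : ∑ j ∈ range H, ‖W r j‖ ^ 2 ≤ ε' * (K : ℝ) ^ 2 * H := by
      refine le_trans (le_of_eq ?_) h1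
      exact sum_congr rfl fun j _ => by rw [hWeq]
    have h4 := h2.trans h3
    have h5 : (0 : ℝ) < (δ * (ε * K)) ^ 2 := by positivity
    have h6 : (((range H).filter fun j : ℕ => δ * s.card < ‖W r j‖).card : ℝ) * (δ * (ε * K)) ^ 2 ≤
        ε' * (K : ℝ) ^ 2 * H := by
      refine le_trans ?_ h4
      gcongr
    have h7 : (((range H).filter fun j : ℕ => δ * s.card < ‖W r j‖).card : ℝ) ≤
        ε' * (K : ℝ) ^ 2 * H / (δ * (ε * K)) ^ 2 := by rwa [le_div_iff₀ h5]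
    refine h7.trans (le_of_eq ?_)
    have hK0 : (K : ℝ) ≠ 0 := by linarith
    field_simp
  -- the bad multipliers
  have hsub : ((range H).filter fun j : ℕ => ∃ a b : Fin d → ℝ,
        (∀ i, 0 ≤ a i ∧ a i ≤ b i ∧ b i ≤ 1) ∧
        ε * s.card < |((s.filter fun n => ∀ i,
          Int.fract ((h₀ + j) * (P i).eval (x ^ n)) ∈ Set.Ico (a i) (b i)).card : ℝ) -
          (∏ i, (b i - a i)) * s.card|) ⊆
      𝓡.biUnion fun r => (range H).filter fun j : ℕ => δ * s.card < ‖W r j‖ := by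
    intro j hj
    obtain ⟨hjH, a, b, hab, hlt⟩ := mem_filter.1 hj
    rw [mem_biUnion]
    by_contra hcon
    push Not at hcon
    have hwy : Wy s (fun n i => (h₀ + j) * (P i).eval (x ^ n)) R δ := by
      intro r hr hrR
      have hr𝓡 : r ∈ 𝓡 := by
        rw [h𝓡, mem_filter, Fintype.mem_piFinset]
        refine ⟨fun a => ?_, hr⟩
        rw [Finset.mem_Icc]
        exact abs_le.1 (hrR a)
      have h1 := hcon r hr𝓡
      rw [mem_filter, not_and, not_lt] at h1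
      exact h1 hjH
    have h1 := hcrit s _ hwy a b hab
    refine absurd hlt (not_lt.2 ?_)
    convert h1
  have h1 : (((range H).filter fun j : ℕ => ∃ a b : Fin d → ℝ,
        (∀ i, 0 ≤ a i ∧ a i ≤ b i ∧ b i ≤ 1) ∧
        ε * s.card < |((s.filter fun n => ∀ i,
          Int.fract ((h₀ + j) * (P i).eval (x ^ n)) ∈ Set.Ico (a i) (b i)).card : ℝ) -
          (∏ i, (b i - a i)) * s.card|).card : ℝ) ≤
      ∑ r ∈ 𝓡, (((range H).filter fun j : ℕ => δ * s.card < ‖W r j‖).card : ℝ) := by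
    exact_mod_cast (card_le_card hsub).trans card_biUnion_le
  refine h1.trans ((sum_le_sum hbad).trans ?_)
  rw [sum_const, nsmul_eq_mul, ← mul_assoc]
  refine mul_le_mul_of_nonneg_right ?_ (Nat.cast_nonneg _)
  rw [hε']
  have h2 : (𝓡.card : ℝ) * (ε * (δ * ε) ^ 2 / ((𝓡.card : ℝ) + 1) / (δ * ε) ^ 2) =
      ε * ((𝓡.card : ℝ) / ((𝓡.card : ℝ) + 1)) := by
    field_simp
  rw [h2]
  have h3 : (𝓡.card : ℝ) / ((𝓡.card : ℝ) + 1) ≤ 1 := by
    rw [div_le_one (by positivity)]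
    linarith
  nlinarith

end Pool.Agent.Y30.PP
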