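import Pool.Agent.Y30.PP.Core

/-!
# Differences `P(x ^ (n + d)) - P(x ^ n)` close to integers in short windows
-/

set_option autoImplicit false

namespace Pool.Agent.Y30.PP

open Polynomial Finset
open Pool.Agent.TH456.TM (MeasT)

/-- `t` is closer than `η` to an integer -/
def Nr (η t : ℝ) : Prop := ∃ b : ℤ, |t - b| < η

/-- a real polynomial with degree at most `k` whose non-constant part has coefficients of size
between `1/T` and `T` -/
structure Ad (k : ℕ) (T : ℝ) (P : ℝ[X]) : Prop where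
  deg : P.natDegree ≤ k
  one : 1 ≤ T
  up : ∀ i, 1 ≤ i → |P.coeff i| ≤ T
  low : ∃ i, 1 ≤ i ∧ 1 / T ≤ |P.coeff i|

lemma eval_split {k : ℕ} (P : ℝ[X]) (hP : P.natDegree ≤ k) (t : ℝ) :
    P.eval t = P.coeff 0 + ∑ i : Fin k, P.coeff ((i : ℕ) + 1) * t ^ ((i : ℕ) + 1) := by
  rw [eval_eq_sum_range' (lt_of_le_of_lt hP (Nat.lt_succ_self k)), Finset.sum_range_succ',
    ← Fin.sum_univ_eq_sum_range (fun i => P.coeff (i + 1) * t ^ (i + 1))]
  simp [add_comm]

/-- in a window of length `L` at most `k` differences are close to integers -/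
lemma win (x : ℝ) (hx1 : 1 < |x|) (hx : MeasT (x : ℂ)) (k L : ℕ) :
    ∃ A : ℝ, 0 ≤ A ∧ ∀ (T : ℝ) (P : ℝ[X]), Ad k T P → ∀ (d E : ℕ), 1 ≤ d →
      ∀ n : Fin (k + 1) → ℕ, StrictMono n → n (Fin.last k) ≤ n 0 + L → n (Fin.last k) + d ≤ E →
      ¬ ∀ l, Nr ((T * Real.exp E) ^ (-A)) (P.eval (x ^ (n l + d)) - P.eval (x ^ n l)) := by
  obtain ⟨κ, C, hκ, hC, h⟩ := core x hx1 hx k L
  set g : ℝ := Real.log |x| with hg
  have hg0 : 0 < g := Real.log_pos hx1
  have hx0 : 0 < |x| := by linarith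
  set A : ℝ := κ * (2 + k * g) + Real.log C + 2 + |Real.log (|x| - 1)| with hA
  have hlC : 0 ≤ Real.log C := Real.log_nonneg hC
  have hA0 : 0 ≤ A := by positivity
  refine ⟨A, hA0, fun T P hP d E hd n hn hnL hnE hall => ?_⟩
  obtain ⟨hdeg, hT, hup, i₀, hi₀, hlow⟩ := hP
  have hE1 : 1 ≤ E := by omega
  set Q : ℝ := T * Real.exp E with hQ
  have hQe : Real.exp 1 ≤ Q := by
    rw [hQ]
    have h1 : Real.exp 1 ≤ Real.exp E := Real.exp_le_exp.2 (by exact_mod_cast hE1)
    have h2 : 0 < Real.exp E := Real.exp_pos _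
    nlinarith
  have hQ0 : 0 < Q := lt_of_lt_of_le (Real.exp_pos 1) hQe
  have hQ1 : 1 ≤ Q := le_trans (by
    have := Real.add_one_le_exp (1 : ℝ); linarith) hQe
  have hexp : ∀ s : ℝ, 0 ≤ s → Real.exp s ≤ Q ^ s := by
    intro s hs
    calc Real.exp s = (Real.exp 1) ^ s := by rw [← Real.exp_mul, one_mul]
      _ ≤ Q ^ s := Real.rpow_le_rpow (Real.exp_pos 1).le hQe hs
  have hTQ : T ≤ Q := by
    rw [hQ]
    have : 1 ≤ Real.exp (E : ℝ) := Real.one_le_exp (Nat.cast_nonneg _)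
    nlinarith
  set η : ℝ := Q ^ (-A) with hη
  have hη0 : 0 < η := Real.rpow_pos_of_pos hQ0 _
  -- the coefficients
  set y : Fin k → ℝ := fun i => P.coeff ((i : ℕ) + 1) * ((x ^ d) ^ ((i : ℕ) + 1) - 1) *
    (x ^ n 0) ^ ((i : ℕ) + 1) with hy
  set Y : ℝ := 2 * T * |x| ^ (k * E) with hY
  have hXE : 1 ≤ |x| ^ (k * E) := one_le_pow₀ hx1.le
  have hY1 : 1 ≤ Y := by rw [hY]; nlinarith
  have hn0 : n 0 ≤ n (Fin.last k) := hn.monotone (Fin.zero_le _)
  have hyY : ∀ i, |y i| ≤ Y := by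
    intro i
    simp only [hy, hY, abs_mul]
    have h1 : |P.coeff ((i : ℕ) + 1)| ≤ T := hup _ (by omega)
    have h2 : |(x ^ d) ^ ((i : ℕ) + 1) - 1| ≤ 2 * |x| ^ (d * ((i : ℕ) + 1)) := by
      refine (abs_sub _ _).trans ?_
      rw [← pow_mul, abs_pow, abs_one]
      have : 1 ≤ |x| ^ (d * ((i : ℕ) + 1)) := one_le_pow₀ hx1.le
      linarith
    have h3 : |(x ^ n 0) ^ ((i : ℕ) + 1)| = |x| ^ (n 0 * ((i : ℕ) + 1)) := by
      rw [← pow_mul, abs_pow]
    rw [h3]
    calc |P.coeff ((i : ℕ) + 1)| * |(x ^ d) ^ ((i : ℕ) + 1) - 1| * |x| ^ (n 0 * ((i : ℕ) + 1))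
        ≤ T * (2 * |x| ^ (d * ((i : ℕ) + 1))) * |x| ^ (n 0 * ((i : ℕ) + 1)) := by gcongr
      _ = 2 * T * |x| ^ ((n 0 + d) * ((i : ℕ) + 1)) := by rw [add_mul, pow_add]; ring
      _ ≤ 2 * T * |x| ^ (k * E) := by
          refine mul_le_mul_of_nonneg_left (pow_le_pow_right₀ hx1.le ?_) (by positivity)
          rw [mul_comm k E]
          exact Nat.mul_le_mul (by omega) i.2
  have hi₀k : i₀ ≤ k := by
    by_contra hcon
    have : P.coeff i₀ = 0 := coeff_eq_zero_of_natDegree_lt (by omega)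
    rw [this, abs_zero] at hlow
    have : 0 < 1 / T := by positivity
    linarith
  have hδ : ∃ i, (|x| - 1) / T ≤ |y i| := by
    refine ⟨⟨i₀ - 1, by omega⟩, ?_⟩
    have e1 : i₀ - 1 + 1 = i₀ := by omega
    simp only [hy, abs_mul, e1]
    have h2 : |x| - 1 ≤ |(x ^ d) ^ i₀ - 1| := by
      have h3 : |x| ≤ |(x ^ d) ^ i₀| := by
        rw [← pow_mul, abs_pow]
        calc |x| = |x| ^ 1 := (pow_one _).symm
          _ ≤ |x| ^ (d * i₀) := pow_le_pow_right₀ hx1.le (Nat.mul_pos hd hi₀)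
      have h4 := abs_sub_abs_le_abs_sub ((x ^ d) ^ i₀) 1
      rw [abs_one] at h4
      linarith
    have h3 : 1 ≤ |(x ^ n 0) ^ i₀| := by
      rw [← pow_mul, abs_pow]
      exact one_le_pow₀ hx1.le
    calc (|x| - 1) / T = 1 / T * (|x| - 1) * 1 := by ring
      _ ≤ |P.coeff i₀| * |(x ^ d) ^ i₀ - 1| * |(x ^ n 0) ^ i₀| := by
          have : 0 ≤ |x| - 1 := by linarith
          have : 0 ≤ 1 / T := by positivity
          gcongr
  -- apply the core lemma
  have key := h (fun l => n l - n 0) (by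
      intro a b hab
      have h1 := hn hab
      have h2 := hn.monotone (Fin.zero_le a)
      show n a - n 0 < n b - n 0
      omega) (by
      intro l
      have h1 := hn.monotone (Fin.le_last l)
      omega) y Y ((|x| - 1) / T) η hY1 hyY hδ hη0 (by
      intro l
      obtain ⟨b, hb⟩ := hall l
      refine ⟨b, ?_⟩
      have e1 : P.eval (x ^ (n l + d)) - P.eval (x ^ n l) =
          ∑ i : Fin k, y i * (x ^ (n l - n 0)) ^ ((i : ℕ) + 1) := by
        rw [eval_split P hdeg, eval_split P hdeg, add_sub_add_left_eq_sub, ← sum_sub_distrib]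
        refine sum_congr rfl fun i _ => ?_
        have h1 := hn.monotone (Fin.zero_le l)
        have e2 : x ^ n l = x ^ n 0 * x ^ (n l - n 0) := by
          rw [← pow_add]; congr 1; omega
        simp only [hy]
        rw [pow_add x (n l) d, e2]
        ring
      rw [e1] at hb
      exact hb)
  have hη1 : ∀ s : ℝ, s < A → Q ^ s * η < 1 := by
    intro s hs
    rw [hη, ← Real.rpow_add hQ0]
    calc Q ^ (s + -A) < Q ^ (0 : ℝ) := by
          refine Real.rpow_lt_rpow_of_exponent_lt ?_ (by linarith)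
          have := Real.add_one_le_exp (1 : ℝ)
          linarith
      _ = 1 := Real.rpow_zero _
  have hCQ : C ≤ Q ^ (Real.log C) := by
    calc C = Real.exp (Real.log C) := (Real.exp_log (by linarith)).symm
      _ ≤ _ := hexp _ hlC
  rcases key with key | key
  · -- first case
    have hYQ : Y ≤ Q ^ (2 + k * g) := by
      have e1 : |x| ^ (k * E) = Real.exp E ^ (k * g) := by
        rw [← Real.exp_mul, hg, ← Real.rpow_natCast, Real.rpow_def_of_pos hx0]
        congr 1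
        push_cast
        ring
      have e2 : Real.exp (E : ℝ) ≤ Q := by
        rw [hQ]
        have : 0 < Real.exp (E : ℝ) := Real.exp_pos _
        nlinarith
      have e3 : (2 : ℝ) ≤ Q := by
        have := Real.add_one_le_exp (1 : ℝ)
        linarith
      rw [hY, e1, Real.rpow_add hQ0]
      have e4 : Q ^ (2 : ℝ) = Q * Q := by
        rw [show (2 : ℝ) = ((2 : ℕ) : ℝ) by norm_num, Real.rpow_natCast]; ring
      rw [e4]
      have e5 : Real.exp (E : ℝ) ^ (k * g) ≤ Q ^ (k * g) :=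
        Real.rpow_le_rpow (Real.exp_pos _).le e2 (by positivity)
      have : 0 ≤ Real.exp (E : ℝ) ^ (k * g) := by positivity
      gcongr
    have h1 : C * Y ^ κ ≤ Q ^ (Real.log C + κ * (2 + k * g)) := by
      rw [Real.rpow_add hQ0]
      have h2 : Y ^ κ ≤ Q ^ (κ * (2 + k * g)) := by
        rw [mul_comm κ, Real.rpow_mul hQ0.le]
        exact Real.rpow_le_rpow (by linarith) hYQ hκ
      gcongr
    have h2 := hη1 (Real.log C + κ * (2 + k * g)) (by
      rw [hA]
      have := abs_nonneg (Real.log (|x| - 1))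
      linarith)
    have h3 : C * Y ^ κ * η ≤ Q ^ (Real.log C + κ * (2 + k * g)) * η :=
      mul_le_mul_of_nonneg_right h1 hη0.le
    linarith
  · -- second case
    have hx2 : 0 < |x| - 1 := by linarith
    have h1 : 1 ≤ C * η * T / (|x| - 1) := by
      rw [div_le_iff₀ (by positivity)] at key
      rw [le_div_iff₀ hx2]
      linarith
    have h2 : (|x| - 1)⁻¹ ≤ Q ^ |Real.log (|x| - 1)| := by
      calc (|x| - 1)⁻¹ = Real.exp (-Real.log (|x| - 1)) := by
            rw [Real.exp_neg, Real.exp_log hx2]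
        _ ≤ Real.exp |Real.log (|x| - 1)| := Real.exp_le_exp.2 (neg_le_abs _)
        _ ≤ _ := hexp _ (abs_nonneg _)
    have h3 : C * η * T / (|x| - 1) ≤ Q ^ (Real.log C + 1 + |Real.log (|x| - 1)|) * η := by
      rw [Real.rpow_add hQ0, Real.rpow_add hQ0, Real.rpow_one, div_eq_mul_inv]
      calc C * η * T * (|x| - 1)⁻¹ = C * T * (|x| - 1)⁻¹ * η := by ring
        _ ≤ Q ^ (Real.log C) * Q * Q ^ |Real.log (|x| - 1)| * η := by gcongr
    have h4 := hη1 (Real.log C + 1 + |Real.log (|x| - 1)|) (by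
      rw [hA]
      have : 0 ≤ κ * (2 + k * g) := by positivity
      linarith)
    linarith

end Pool.Agent.Y30.PP
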